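import Pool.Agent.W2helper26.DL.Stm

/-!
# Project DL, piece GROW
-/

set_option autoImplicit false

namespace Pool.Agent.W2helper19.DL

open Filter Pool.Agent.NPC Pool.Agent.H620R2.Gauge Pool.Agent.W2helper86.PL
open Pool.Agent.W2helper26.DT (census mm ff)
open Pool.Agent.W2helper26.DL

theorem growth_aux (k : ℕ) (hk : 1 ≤ k) (δ : ℝ) (hδ : 0 < δ) (K : ℝ) : ∀ᶠ ℓ : ℕ in atTop,
    ((ℓ : ℝ) + 1) ^ 3 * (K + 2 ^ ((2 : ℝ) ^ (δ / 2 * Real.logb 2 ℓ ^ (1 / (k : ℝ))))) ≤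
      2 ^ ((2 : ℝ) ^ (δ * Real.logb 2 ℓ ^ (1 / (k : ℝ)))) := by
  have hk0 : (0 : ℝ) < k := by exact_mod_cast hk
  have hl2 : 0 < Real.log 2 := Real.log_pos (by norm_num)
  have hL : Tendsto (fun ℓ : ℕ => Real.logb 2 (ℓ : ℝ)) atTop atTop :=
    (Real.tendsto_logb_atTop (by norm_num)).comp tendsto_natCast_atTop_atTop
  have hu : Tendsto (fun ℓ : ℕ => Real.logb 2 (ℓ : ℝ) ^ (1 / (k : ℝ))) atTop atTop :=
    (tendsto_rpow_atTop (by positivity)).comp hL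
  have hy : Tendsto (fun ℓ : ℕ => (2 : ℝ) ^ (δ / 2 * Real.logb 2 ℓ ^ (1 / (k : ℝ)))) atTop
      atTop := by
    have h7 : Tendsto (fun y : ℝ => (2 : ℝ) ^ y) atTop atTop :=
      tendsto_rpow_atTop_of_base_gt_one 2 (by norm_num)
    exact h7.comp (hu.const_mul_atTop (by positivity))
  -- `ℓ ^ 4 ≤ 2 ^ y`
  have h1 : ∀ᶠ ℓ : ℕ in atTop,
      (ℓ : ℝ) ^ 4 ≤ 2 ^ ((2 : ℝ) ^ (δ / 2 * Real.logb 2 ℓ ^ (1 / (k : ℝ)))) := by
    have h2 := (isLittleO_rpow_exp_pos_mul_atTop (k : ℝ)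
      (b := δ / 2 * Real.log 2) (by positivity)).bound (c := 1 / 4) (by norm_num)
    have h3 := hu.eventually h2
    filter_upwards [h3, eventually_ge_atTop 1] with ℓ hℓ hℓ1
    have hℓ1' : (1 : ℝ) ≤ ℓ := by exact_mod_cast hℓ1
    have hl0 : 0 ≤ Real.logb 2 ℓ := Real.logb_nonneg (by norm_num) hℓ1'
    rw [Real.norm_of_nonneg (by positivity), Real.norm_of_nonneg (by positivity),
      ← Real.rpow_mul hl0] at hℓ
    have h4 : 1 / (k : ℝ) * (k : ℝ) = 1 := by field_simp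
    rw [h4, Real.rpow_one] at hℓ
    have h5 : (ℓ : ℝ) ^ 4 = 2 ^ (4 * Real.logb 2 ℓ) := by
      rw [mul_comm, Real.rpow_mul (by norm_num), Real.rpow_logb (by norm_num) (by norm_num)
        (by linarith)]
      rw [← Real.rpow_natCast]
      norm_num
    rw [h5]
    apply Real.rpow_le_rpow_of_exponent_le (by norm_num)
    rw [Real.rpow_def_of_pos (by norm_num : (0 : ℝ) < 2)]
    have h6 : Real.log 2 * (δ / 2 * Real.logb 2 ℓ ^ (1 / (k : ℝ))) =
        δ / 2 * Real.log 2 * Real.logb 2 ℓ ^ (1 / (k : ℝ)) := by ring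
    rw [h6]
    linarith
  have h6 : ∀ᶠ ℓ : ℕ in atTop,
      |K| ≤ 2 ^ ((2 : ℝ) ^ (δ / 2 * Real.logb 2 ℓ ^ (1 / (k : ℝ)))) := by
    have h7 : Tendsto (fun y : ℝ => (2 : ℝ) ^ y) atTop atTop :=
      tendsto_rpow_atTop_of_base_gt_one 2 (by norm_num)
    exact (h7.comp hy).eventually (eventually_ge_atTop |K|)
  filter_upwards [h1, h6, hy.eventually (eventually_ge_atTop (3 : ℝ)), eventually_ge_atTop 16]
    with ℓ h1 h6 h8 h9
  set y : ℝ := (2 : ℝ) ^ (δ / 2 * Real.logb 2 ℓ ^ (1 / (k : ℝ))) with hyd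
  have hℓ : (16 : ℝ) ≤ ℓ := by exact_mod_cast h9
  have h10 : (2 : ℝ) ^ (δ * Real.logb 2 ℓ ^ (1 / (k : ℝ))) = y ^ 2 := by
    rw [hyd, ← Real.rpow_natCast, ← Real.rpow_mul (by norm_num)]
    congr 1
    push_cast
    ring
  have h11 : ((ℓ : ℝ) + 1) ^ 3 * 2 ≤ (ℓ : ℝ) ^ 4 := by
    nlinarith [sq_nonneg ((ℓ : ℝ)), mul_pos (by linarith : (0:ℝ) < ℓ) (by linarith : (0:ℝ) < ℓ),
      pow_pos (by linarith : (0:ℝ) < ℓ) 3]
  have h12 : K + 2 ^ y ≤ 2 * 2 ^ y := by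
    have := le_abs_self K
    linarith
  have hp : (0 : ℝ) < 2 ^ y := by positivity
  calc ((ℓ : ℝ) + 1) ^ 3 * (K + 2 ^ y) ≤ ((ℓ : ℝ) + 1) ^ 3 * (2 * 2 ^ y) :=
        mul_le_mul_of_nonneg_left h12 (by positivity)
    _ = (((ℓ : ℝ) + 1) ^ 3 * 2) * 2 ^ y := by ring
    _ ≤ 2 ^ y * 2 ^ y := mul_le_mul_of_nonneg_right (h11.trans h1) hp.le
    _ = 2 ^ (2 * y) := by rw [← Real.rpow_add (by norm_num)]; congr 1; ring
    _ ≤ 2 ^ (y ^ 2) := by
        apply Real.rpow_le_rpow_of_exponent_le (by norm_num)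
        nlinarith
    _ = _ := by rw [h10]

theorem p_grow : P_grow := by
  intro k hk s hs δ hδ
  apply Filter.Eventually.frequently
  have hk0 : (0 : ℝ) < k := by exact_mod_cast hk
  obtain ⟨n₀, hn₀⟩ := eventually_atTop.1 (hs (δ / 2) (by positivity))
  set K : ℝ := ∑ n ∈ Finset.range (n₀ + 1), (s n : ℝ) with hK
  have hK0 : 0 ≤ K := Finset.sum_nonneg fun _ _ => Nat.cast_nonneg _
  have hlog : Tendsto (fun N : ℕ => Nat.log 2 N) atTop atTop := by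
    rw [tendsto_atTop_atTop]
    intro b
    refine ⟨2 ^ b, fun N hN => ?_⟩
    have := Nat.log_mono_right (b := 2) hN
    rwa [Nat.log_pow (by norm_num)] at this
  filter_upwards [hlog.eventually (growth_aux k hk δ hδ K), eventually_ge_atTop 2] with N hN hN2
  set ℓ := Nat.log 2 N with hℓ
  have hℓ1 : 1 ≤ ℓ := by
    rw [hℓ]
    exact Nat.log_pos (by norm_num) hN2
  have hℓ1' : (1 : ℝ) ≤ ℓ := by exact_mod_cast hℓ1
  set Y : ℝ := 2 ^ ((2 : ℝ) ^ (δ / 2 * Real.logb 2 ℓ ^ (1 / (k : ℝ)))) with hY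
  have hY0 : 0 ≤ Y := by positivity
  have hsn : ∀ n ∈ Finset.range (ℓ + 1), (s n : ℝ) ≤ K + Y := by
    intro n hn
    rw [Finset.mem_range] at hn
    by_cases h : n < n₀ + 1
    · have h1 : (s n : ℝ) ≤ K := by
        rw [hK]
        exact Finset.single_le_sum (f := fun n => (s n : ℝ)) (fun _ _ => Nat.cast_nonneg _)
          (Finset.mem_range.2 h)
      linarith
    · have h1 := hn₀ n (by omega)
      have hn1 : (1 : ℝ) ≤ n := by exact_mod_cast (by omega : 1 ≤ n)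
      have h2 : (2 : ℝ) ^ ((2 : ℝ) ^ (δ / 2 * Real.logb 2 n ^ (1 / (k : ℝ)))) ≤ Y := by
        rw [hY]
        apply Real.rpow_le_rpow_of_exponent_le (by norm_num)
        apply Real.rpow_le_rpow_of_exponent_le (by norm_num)
        apply mul_le_mul_of_nonneg_left _ (by positivity)
        apply Real.rpow_le_rpow (Real.logb_nonneg (by norm_num) hn1) _ (by positivity)
        apply Real.logb_le_logb_of_le (by norm_num) (by linarith)
        exact_mod_cast (by omega : n ≤ ℓ)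
      linarith
  have hmm : (mm s N : ℝ) ≤ ((ℓ : ℝ) + 1) ^ 2 * (K + Y) := by
    unfold mm
    rw [← hℓ]
    push_cast
    have h1 := Finset.sum_le_sum hsn
    rw [Finset.sum_const, Finset.card_range, nsmul_eq_mul] at h1
    push_cast at h1
    have h2 : (0 : ℝ) ≤ (ℓ : ℝ) + 1 := by positivity
    calc ((ℓ : ℝ) + 1) * ∑ n ∈ Finset.range (ℓ + 1), (s n : ℝ)
        ≤ ((ℓ : ℝ) + 1) * (((ℓ : ℝ) + 1) * (K + Y)) :=
          mul_le_mul_of_nonneg_left h1 h2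
      _ = _ := by ring
  have hlN : Real.logb 2 (N + 1) ≤ (ℓ : ℝ) + 1 := by
    have h1 : N + 1 ≤ 2 ^ (ℓ + 1) := Nat.lt_pow_succ_log_self (by norm_num) N
    have h2 : ((N : ℝ) + 1) ≤ 2 ^ (ℓ + 1) := by exact_mod_cast h1
    rw [Real.logb_le_iff_le_rpow (by norm_num) (by positivity)]
    refine h2.trans (le_of_eq ?_)
    rw [← Real.rpow_natCast]
    push_cast
    rfl
  have hl0 : (0 : ℝ) ≤ Real.logb 2 (N + 1) := Real.logb_nonneg (by norm_num) (by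
    have : (0 : ℝ) ≤ N := Nat.cast_nonneg N
    linarith)
  have hℓN : (ℓ : ℝ) ≤ Real.logb 2 N := by
    rw [Real.le_logb_iff_rpow_le (by norm_num) (by positivity)]
    have h1 : 2 ^ ℓ ≤ N := Nat.pow_log_le_self 2 (by omega)
    rw [Real.rpow_natCast]
    exact_mod_cast h1
  have hpos : (0 : ℝ) ≤ K + Y := by positivity
  calc ff s N = mm s N * Real.logb 2 (N + 1) := rfl
    _ ≤ (((ℓ : ℝ) + 1) ^ 2 * (K + Y)) * ((ℓ : ℝ) + 1) :=
        mul_le_mul hmm hlN hl0 (by positivity)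
    _ = ((ℓ : ℝ) + 1) ^ 3 * (K + Y) := by ring
    _ ≤ 2 ^ ((2 : ℝ) ^ (δ * Real.logb 2 ℓ ^ (1 / (k : ℝ)))) := hN
    _ ≤ 2 ^ ((2 : ℝ) ^ (δ * Real.logb 2 (Real.logb 2 N) ^ (1 / (k : ℝ)))) := by
        apply Real.rpow_le_rpow_of_exponent_le (by norm_num)
        apply Real.rpow_le_rpow_of_exponent_le (by norm_num)
        apply mul_le_mul_of_nonneg_left _ hδ.le
        apply Real.rpow_le_rpow (Real.logb_nonneg (by norm_num) hℓ1') _ (by positivity)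
        exact Real.logb_le_logb_of_le (by norm_num) (by linarith) hℓN

end Pool.Agent.W2helper19.DL
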