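import Pool.Agent.W2helper19.DL.T4

/-!
# Job T: the counting function of the exact runs is good
-/

set_option autoImplicit false

namespace Pool.Agent.W2helper19.DL

open Pool.Agent.W2helper68.DL

theorem GoodF.add {f g : ℕ → ℝ} (hf : GoodF f) (hg : GoodF g) : GoodF (fun n => f n + g n) := by
  obtain ⟨C1, C1', K1, h1⟩ := hf
  obtain ⟨C2, C2', K2, h2⟩ := hg
  refine ⟨C1 + C2, C1' + C2', K1 + K2, fun n hn => ?_⟩
  have a1 := abs_le.1 (h1 n hn)
  have a2 := abs_le.1 (h2 n hn)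
  have e : (C1 + C2) * Real.log n + (C1' + C2') * Real.log (Real.log n) =
    (C1 * Real.log n + C1' * Real.log (Real.log n)) +
      (C2 * Real.log n + C2' * Real.log (Real.log n)) := by ring
  rw [abs_le, e]
  constructor <;> linarith [a1.1, a1.2, a2.1, a2.2]

theorem GoodF.zero : GoodF (fun _ => 0) := ⟨0, 0, 0, fun n _ => by simp⟩

theorem GoodF.sum {ι : Type} (s : Finset ι) {f : ι → ℕ → ℝ} (h : ∀ i ∈ s, GoodF (f i)) :
    GoodF (fun n => ∑ i ∈ s, f i n) := by
  classical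
  induction s using Finset.induction_on with
  | empty => simpa using GoodF.zero
  | insert a s ha ih =>
    have := GoodF.add (h a (Finset.mem_insert_self _ _))
      (ih (fun i hi => h i (Finset.mem_insert_of_mem hi)))
    simp only [Finset.sum_insert ha]
    exact this

theorem GoodF.pert {f g : ℕ → ℝ} (hf : GoodF f) (K : ℝ) (h : ∀ n, |g n - f n| ≤ K) : GoodF g := by
  obtain ⟨C1, C1', K1, h1⟩ := hf
  refine ⟨C1, C1', K1 + K, fun n hn => ?_⟩
  have a1 := abs_le.1 (h1 n hn)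
  have a2 := abs_le.1 (h n)
  rw [abs_le]
  constructor <;> linarith [a1.1, a1.2, a2.1, a2.2]

/-- cardinality of a sigma set -/
theorem ncard_sigma {T α : Type} [Fintype T] (S : T → Set α) (hfin : ∀ τ, (S τ).Finite) :
    {p : T × α | p.2 ∈ S p.1}.ncard = ∑ τ, (S τ).ncard := by
  have : ∀ τ, Finite (S τ) := fun τ => (hfin τ).to_subtype
  rw [← Nat.card_coe_set_eq]
  have e : {p : T × α | p.2 ∈ S p.1} ≃ Σ τ, S τ :=
    { toFun := fun p => ⟨p.1.1, ⟨p.1.2, p.2⟩⟩
      invFun := fun s => ⟨(s.1, s.2.1), s.2.2⟩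
      left_inv := fun p => rfl
      right_inv := fun s => rfl }
  rw [Nat.card_congr e, Nat.card_sigma]
  rfl

theorem length_le_flatMap {A B : Type} {φ : A → List B} (h : ∀ b, 2 ≤ (φ b).length) (z : List A) :
    z.length ≤ (z.flatMap φ).length := by
  induction z with
  | nil => simp
  | cons a z ih =>
    have := h a
    simp only [List.flatMap_cons, List.length_append, List.length_cons]
    omega

section
variable {A : Type} {x : ℤ → A}

theorem tri_of_run {Q D : ℕ} {a b : ℤ} (h : Rn x Q a b) (hl : a + 2 * Q ≤ b) :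
    wi x (a - (D + 1)) (b + (D + 1)) ∈ Tri x {w | InU Q D w} := by
  have hrn := h
  obtain ⟨q, hq1, hq2, hp, hL, hR⟩ := h
  have e1 : a - ((D : ℤ) + 1) + 1 = a - D := by ring
  have e2 : b + ((D : ℤ) + 1) - 1 = b + D := by ring
  refine ⟨wi_mem_Lang _ _ _, ?_, ?_, ?_, ?_⟩
  · rintro hU
    rw [Set.mem_ofPred_eq, inU_wi x (by omega)] at hU
    obtain ⟨r, hr1, hr2, hr3⟩ := hU
    have := (hrn.per_exact hr1 (hr3.mono (by omega) (by omega)) (by omega)).1
    exact this (hr3 (a - 1) (by omega) (by omega))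
  · rintro hU
    rw [wi_tail x (by omega), Set.mem_ofPred_eq, inU_wi x (by omega)] at hU
    obtain ⟨r, hr1, hr2, hr3⟩ := hU
    have := (hrn.per_exact hr1 (hr3.mono (by omega) (by omega)) (by omega)).2
    apply this
    have := hr3 (b - r) (by omega) (by omega)
    rw [this]; congr 1; ring
  · rintro hU
    rw [wi_dropLast x (by omega), Set.mem_ofPred_eq, inU_wi x (by omega)] at hU
    obtain ⟨r, hr1, hr2, hr3⟩ := hU
    have := (hrn.per_exact hr1 (hr3.mono (by omega) (by omega)) (by omega)).1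
    exact this (hr3 (a - 1) (by omega) (by omega))
  · rw [wi_tail x (by omega), wi_dropLast x (by omega), Set.mem_ofPred_eq, inU_wi x (by omega)]
    exact ⟨q, hq1, hq2, hp.mono (by omega) (by omega)⟩

theorem run_of_tri {Q D : ℕ} {w : List A} (h : w ∈ Tri x {w | InU Q D w})
    (hl : 2 * (D + 1) ≤ w.length) : ∃ a b : ℤ, a ≤ b ∧ b - a = w.length - 2 * (D + 1) ∧ Rn x Q a b ∧
      w = wi x (a - (D + 1)) (b + (D + 1)) := by
  obtain ⟨hLang, h1, h2, h3, h4⟩ := h
  obtain ⟨i, hi⟩ := (Lang_iff _ _).1 hLang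
  set n := w.length with hn
  have hwi : w = wi x (i + (D + 1) - (D + 1)) (i + n - (D + 1) + (D + 1)) := by
    rw [show i + ((D : ℤ) + 1) - (D + 1) = i by ring,
      show i + (n : ℤ) - (D + 1) + (D + 1) = i + n by ring]
    exact hi
  refine ⟨i + (D + 1), i + n - (D + 1), by omega, by omega, ?_, hwi⟩
  rw [hi, wi_tail x (by omega), Set.mem_ofPred_eq, inU_wi x (by omega)] at h2
  rw [hi, wi_dropLast x (by omega), Set.mem_ofPred_eq, inU_wi x (by omega)] at h3
  rw [hi, wi_tail x (by omega), wi_dropLast x (by omega), Set.mem_ofPred_eq,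
    inU_wi x (by omega)] at h4
  obtain ⟨q, hq1, hq2, hq3⟩ := h4
  refine ⟨q, hq1, hq2, hq3.mono (by omega) (by omega), ?_, ?_⟩
  · intro he
    refine h3 ⟨q, hq1, hq2, fun t ht1 ht2 => ?_⟩
    by_cases ht : t = i + D
    · rw [ht, show i + (D : ℤ) = i + (D + 1) - 1 by ring]
      exact he
    · exact hq3 t (by omega) (by omega)
  · intro he
    refine h2 ⟨q, hq1, hq2, fun t ht1 ht2 => ?_⟩
    by_cases ht : t + q = i + n - (D + 1)
    · rw [ht, he]; congr 1; omega
    · exact hq3 t (by omega) (by omega)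

end

/-- **Job T.** -/
theorem jobT : JobT := by
  intro A B _ _ _ _ φ ψ y x c e Λ K Q0 hφ hψ h h' Q hQ hR hA
  obtain ⟨φ, hφ, hφ0⟩ := exists_sub' hφ h'
  obtain ⟨ψ, hψ, hψ0⟩ := exists_sub' hψ h
  have hΛ := h.two_le
  have hK := h.K0
  have hQ01 := h.Q01
  have hQ0Q : Q0 ≤ Q := by nlinarith
  obtain ⟨⟨M0, hM0⟩, -⟩ := hR A y e Λ K Q0 h Q hQ0Q
  obtain ⟨c0, hc0, hrig⟩ := rigRun hR h hQ0Q
  refine ⟨(Λ * (c0 + 1) + K).toNat, fun D hDD => ?_⟩
  have hΛc : 0 ≤ Λ * (c0 + 1) := by nlinarith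
  have hD : Λ * (c0 + 1) + K ≤ D := by omega
  obtain ⟨D1, hD1⟩ : ∃ D1 : ℕ, (D1 : ℤ) = K + D + 1 := ⟨(K + D + 1).toNat, by omega⟩
  obtain ⟨E, hE⟩ : ∃ E : ℕ, (E : ℤ) = 2 * Q := ⟨2 * Q, by push_cast; ring⟩
  obtain ⟨M1, hM1⟩ := hrig D1
  obtain ⟨M, hM⟩ : ∃ M : ℤ, M = max (max M0 M1) (4 * Q + 2 * K + 1) := ⟨_, rfl⟩
  -- (R1) for runs
  have hR1 : ∀ a b, Rn y Q a b → a + M ≤ b → Rn y Q0 a b := by
    intro a b hr hab
    obtain ⟨q, hq1, hq2, hq3, -⟩ := id hr
    obtain ⟨q0, hq01, hq02, hq03⟩ := hM0 q a b hq1 hq2 (by omega) hq3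
    exact hr.change hq01 hq02 hq03 (by omega)
  have hgood := fun (τ : Ty A (D1 + E)) (κ : ℕ) => St_good hA hψ h hφ0 hψ0 (Q := Q) (M := M)
    (D := D1) (E := E) hQ (by omega) (by omega) (by omega) (by omega) hR1 τ κ
  obtain ⟨L, R, hLR⟩ := exists_LR h' (Q := Q) (M := M) (D := D1) (E := E) (D + 1) (by omega)
    (by omega) (by omega) (by push_cast; omega)
  obtain ⟨N0, hN0⟩ := exists_parent h' (Q := Q) (M := M) (by omega)
  obtain ⟨N1, hN1⟩ : ∃ N1 : ℕ, N0 + 2 * (D + 1) ≤ N1 ∧ 2 * (D + 1) ≤ N1 :=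
    ⟨(N0 + 2 * (D + 1)).toNat + 2 * (D + 1), by omega, by omega⟩
  have hfinB : ∀ n : ℕ, {w : List B | w.length < n}.Finite := fun n => List.finite_length_lt B n
  have hfinA : ∀ n : ℕ, {w : List A | w.length < n}.Finite := fun n => List.finite_length_lt A n
  -- the words
  let W : Ty A (D1 + E) × List A → List B := fun p => L p.1 ++ p.2.flatMap φ ++ R p.1
  have hW : ∀ p : Ty A (D1 + E) × List A, (W p).length =
      (p.2.flatMap φ).length + ((L p.1).length + (R p.1).length) := by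
    intro p
    simp only [W, List.length_append]
    omega
  have hWpos : ∀ (τ : Ty A (D1 + E)) (z : List A), z ∈ St y Q M D1 E τ → ∃ p p' a b,
      Pos y x c K Q M p p' a b ∧ ty y D1 E p p' = τ ∧ z = wi y p p' ∧
      W (τ, z) = wi x (a - (D + 1)) (b + (D + 1)) := by
    rintro τ z ⟨p, p', hM', hr, rfl, rfl⟩
    obtain ⟨a, b, hpos⟩ := exists_child h' hQ (hR1 _ _ hr hM') hM' (by omega)
    refine ⟨p, p', a, b, hpos, rfl, rfl, ?_⟩
    obtain ⟨k1, k2⟩ := hLR _ _ _ _ hpos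
    have k3 := hpos.word hφ h' (by omega) (D + 1)
    push_cast at k1 k2 k3
    simp only [W]
    rw [← k1, ← k2, k3]
  have hinj : ∀ p q : Ty A (D1 + E) × List A, p.2 ∈ St y Q M D1 E p.1 → q.2 ∈ St y Q M D1 E q.1 →
      W p = W q → p = q := by
    rintro ⟨τ, z⟩ ⟨τ', z'⟩ hp hq hpq
    obtain ⟨p1, p1', a1, b1, hpos1, rfl, rfl, hw1⟩ := hWpos τ z hp
    obtain ⟨p2, p2', a2, b2, hpos2, rfl, rfl, hw2⟩ := hWpos τ' z' hq
    rw [hw1, hw2] at hpq
    obtain ⟨e1, e2⟩ := run_inj h' (s := c0 + 1) (m := D + 1) (by omega) (by omega) hQ0Q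
      (by omega) hpos1 hpos2 hpq
    have e3 := hM1 p1 p1' p2 p2' hpos1.2.1 hpos2.2.1 (by have := hpos1.1; omega) e1
      (e2.mono (by omega) (by omega))
    have hm1 := hpos1.1
    rw [Prod.mk.injEq]
    constructor
    · rw [ty_eq_iff]
      constructor
      · exact e3.mono (by omega) (by omega)
      · exact e3.shift' (by omega) (by omega) (by omega)
    · exact wi_eq (e3.mono (by omega) (by omega)) e1
  refine GoodF.pert (GoodF.sum Finset.univ (fun τ _ =>
    hgood τ ((L τ).length + (R τ).length))) (({w : List B | w.length < N1}.ncard : ℕ) : ℝ) ?_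
  intro n
  -- the finite sets
  set G : Ty A (D1 + E) → Set (List A) := fun τ =>
    {z | z ∈ St y Q M D1 E τ ∧ (z.flatMap φ).length + ((L τ).length + (R τ).length) < n} with hG
  have hGfin : ∀ τ, (G τ).Finite := by
    intro τ
    refine (hfinA n).subset ?_
    rintro z ⟨-, hz⟩
    have := length_le_flatMap hφ0 z
    show z.length < n
    omega
  have hsum := ncard_sigma G hGfin
  set EE : Set (Ty A (D1 + E) × List A) := {p | p.2 ∈ G p.1} with hEE
  have hinjOn : Set.InjOn W EE := by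
    intro p hp q hq hpq
    exact hinj p q hp.1 hq.1 hpq
  have hcard := hinjOn.ncard_image
  set F : Set (List B) := {w | w ∈ Tri x {w | InU Q D w} ∧ w.length < n} with hF
  have hFfin : F.Finite := (hfinB n).subset (fun w hw => hw.2)
  have hsub1 : W '' EE ⊆ F := by
    rintro w ⟨⟨τ, z⟩, ⟨hz1, hz2⟩, rfl⟩
    obtain ⟨p, p', a, b, hpos, -, -, hw⟩ := hWpos τ z hz1
    have hl := hpos.len h' (by omega)
    refine ⟨?_, ?_⟩
    · rw [hw]
      exact tri_of_run hpos.2.2.1 (by omega)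
    · rw [hW]
      exact hz2
  have hsub2 : F ⊆ W '' EE ∪ {w : List B | w.length < N1} := by
    intro w hw
    by_cases hwl : w.length < N1
    · exact Or.inr hwl
    · left
      push Not at hwl
      obtain ⟨a, b, hab, hlen, hrn, hweq⟩ := run_of_tri hw.1 (by omega)
      obtain ⟨p, p', hpos⟩ := hN0 a b (by omega) hrn
      have hst : wi y p p' ∈ St y Q M D1 E (ty y D1 E p p') := ⟨p, p', hpos.1, hpos.2.1, rfl, rfl⟩
      obtain ⟨k1, k2⟩ := hLR _ _ _ _ hpos
      have k3 := hpos.word hφ h' (by omega) (D + 1)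
      push_cast at k1 k2 k3
      have hWw : W (ty y D1 E p p', wi y p p') = w := by
        simp only [W]
        rw [← k1, ← k2, k3, hweq]
      refine ⟨(ty y D1 E p p', wi y p p'), ⟨hst, ?_⟩, hWw⟩
      have := hW (ty y D1 E p p', wi y p p')
      rw [hWw] at this
      have h3 := hw.2
      simp only at this ⊢
      omega
  have c1 : (W '' EE).ncard ≤ F.ncard := Set.ncard_le_ncard hsub1 hFfin
  have c2 : F.ncard ≤ (W '' EE).ncard + {w : List B | w.length < N1}.ncard := by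
    refine (Set.ncard_le_ncard hsub2 ((hFfin.subset hsub1).union (hfinB N1))).trans ?_
    exact Set.ncard_union_le _ _
  rw [hcard, hsum] at c1 c2
  have c1' : (∑ τ, ((G τ).ncard : ℝ)) ≤ (F.ncard : ℝ) := by exact_mod_cast c1
  have c2' : (F.ncard : ℝ) ≤ (∑ τ, ((G τ).ncard : ℝ)) +
      (({w : List B | w.length < N1}.ncard : ℕ) : ℝ) := by exact_mod_cast c2
  rw [abs_le]
  have c3 : (0 : ℝ) ≤ (({w : List B | w.length < N1}.ncard : ℕ) : ℝ) := by positivity
  constructor <;> linarith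

end Pool.Agent.W2helper19.DL
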