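import Pool.Agent.W2helper26.DL.Stm

/-!
# Project DL, piece NUMC
-/

set_option autoImplicit false

namespace Pool.Agent.W2helper19.DL

open Filter Pool.Agent.NPC Pool.Agent.H620R2.Gauge Pool.Agent.W2helper86.PL
open Pool.Agent.W2helper26.DT (census mm ff)
open Pool.Agent.W2helper26.DL

theorem p_numC : P_numC := by
  intro k hk s δ hδ hs
  obtain ⟨n₀, hn₀⟩ := eventually_atTop.1 hs
  obtain ⟨D, hD⟩ := exists_nat_ge (max (n₀ : ℝ) ((1 / δ) ^ k))
  have hD1 : (n₀ : ℝ) ≤ D := (le_max_left _ _).trans hD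
  have hD2 : (1 / δ) ^ k ≤ (D : ℝ) := (le_max_right _ _).trans hD
  have hD1' : n₀ ≤ D := by exact_mod_cast hD1
  refine ⟨D, fun n => ?_⟩
  set m : ℕ := padLen k D n with hm
  set z : ℕ := Nat.size n + 1 with hz
  have hmz : 2 ^ (D * z ^ k) ≤ m := by
    rw [hm]
    unfold padLen
    rw [← hz]
    omega
  have hz1 : 1 ≤ z ^ k := Nat.one_le_pow _ _ (by omega)
  have hDm : n₀ ≤ m := by
    calc n₀ ≤ D := hD1'
      _ ≤ D * z ^ k := Nat.le_mul_of_pos_right _ hz1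
      _ ≤ 2 ^ (D * z ^ k) := Nat.lt_two_pow_self.le
      _ ≤ m := hmz
  have hm0 : 0 < m := lt_of_lt_of_le (by positivity) hmz
  have h1 := hn₀ m hDm
  have hlog : (D : ℝ) * (z : ℝ) ^ k ≤ Real.logb 2 m := by
    rw [Real.le_logb_iff_rpow_le (by norm_num) (by exact_mod_cast hm0)]
    have : ((2 : ℝ) ^ ((D : ℝ) * (z : ℝ) ^ k)) = ((2 ^ (D * z ^ k) : ℕ) : ℝ) := by
      rw [Nat.cast_pow, Nat.cast_ofNat, ← Real.rpow_natCast 2 (D * z ^ k)]
      push_cast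
      rfl
    rw [this]
    exact_mod_cast hmz
  have h2 : 1 / δ * (z : ℝ) ≤ Real.logb 2 m ^ (1 / (k : ℝ)) := by
    have h3 : (1 / δ * (z : ℝ)) ^ k ≤ Real.logb 2 m := by
      rw [mul_pow]
      refine le_trans ?_ hlog
      exact mul_le_mul_of_nonneg_right hD2 (by positivity)
    have h4 : 0 ≤ 1 / δ * (z : ℝ) := by positivity
    calc 1 / δ * (z : ℝ) = ((1 / δ * (z : ℝ)) ^ k) ^ (1 / (k : ℝ)) := by
          rw [one_div (k : ℝ), Real.pow_rpow_inv_natCast h4 (by omega)]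
      _ ≤ Real.logb 2 m ^ (1 / (k : ℝ)) := Real.rpow_le_rpow (by positivity) h3 (by positivity)
  have h5 : (z : ℝ) ≤ δ * Real.logb 2 m ^ (1 / (k : ℝ)) := by
    calc (z : ℝ) = δ * (1 / δ * z) := by field_simp
      _ ≤ _ := mul_le_mul_of_nonneg_left h2 hδ.le
  have h6 : (n : ℝ) ≤ 2 ^ (δ * Real.logb 2 m ^ (1 / (k : ℝ))) := by
    have h7 : n ≤ 2 ^ z := by
      have := Nat.lt_size_self n
      have h8 : 2 ^ Nat.size n ≤ 2 ^ z := Nat.pow_le_pow_right (by norm_num) (by omega)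
      omega
    calc (n : ℝ) ≤ ((2 ^ z : ℕ) : ℝ) := by exact_mod_cast h7
      _ = (2 : ℝ) ^ (z : ℝ) := by rw [Real.rpow_natCast]; push_cast; rfl
      _ ≤ _ := Real.rpow_le_rpow_of_exponent_le (by norm_num) h5
  have h9 : ((2 ^ n : ℕ) : ℝ) ≤ (s m : ℝ) := by
    refine le_trans ?_ h1
    push_cast
    rw [← Real.rpow_natCast]
    exact Real.rpow_le_rpow_of_exponent_le (by norm_num) h6
  exact_mod_cast h9

end Pool.Agent.W2helper19.DL
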