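import Pool.Agent.W2helper26.DL.Stm

/-!
# Project DL, piece PADC
-/

set_option autoImplicit false

namespace Pool.Agent.W2helper19.DL

open Filter Pool.Agent.NPC Pool.Agent.H620R2.Gauge Pool.Agent.W2helper86.PL
open Pool.Agent.W2helper26.DT (census mm ff)
open Pool.Agent.W2helper26.DL

lemma padLen_strictMono (k D : ℕ) : StrictMono (padLen k D) := by
  intro a b h
  unfold padLen
  have h1 : Nat.size a ≤ Nat.size b := Nat.size_le_size h.le
  have h2 : 2 ^ (D * (Nat.size a + 1) ^ k) ≤ 2 ^ (D * (Nat.size b + 1) ^ k) :=
    Nat.pow_le_pow_right (by norm_num)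
      (Nat.mul_le_mul_left _ (Nat.pow_le_pow_left (by omega) _))
  omega

lemma length_padw (k D : ℕ) (x : List Bool) : (padw k D x).length = padLen k D x.length := by
  unfold padw padLen
  rw [List.length_append, List.length_replicate]

theorem p_padC : P_padC := by
  intro k D L m
  unfold census
  by_cases h : ∃ x ∈ L, (padw k D x).length = m
  · left
    obtain ⟨x, hx, hm⟩ := h
    refine ⟨x.length, ?_, ?_⟩
    · rw [← hm, length_padw]
    · have hsub : {y | y ∈ padL k D L ∧ y.length = m} ⊆
          (fun f : Fin x.length → Bool => padw k D (List.ofFn f)) '' Set.univ := by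
        rintro y ⟨⟨z, hz, rfl⟩, hy⟩
        have h1 : z.length = x.length := by
          apply (padLen_strictMono k D).injective
          rw [← length_padw, ← length_padw, hy, hm]
        refine ⟨fun i => z.get (Fin.cast h1.symm i), trivial, ?_⟩
        show padw k D (List.ofFn fun i => z.get (Fin.cast h1.symm i)) = padw k D z
        congr 1
        apply List.ext_getElem
        · simp [h1]
        · intro i h2 h3
          simp
      calc {y | y ∈ padL k D L ∧ y.length = m}.ncard
          ≤ ((fun f : Fin x.length → Bool => padw k D (List.ofFn f)) '' Set.univ).ncard :=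
            Set.ncard_le_ncard hsub (Set.toFinite _)
        _ ≤ (Set.univ : Set (Fin x.length → Bool)).ncard := Set.ncard_image_le (Set.toFinite _)
        _ = 2 ^ x.length := by
            rw [Set.ncard_univ, Nat.card_eq_fintype_card, Fintype.card_fun, Fintype.card_bool,
              Fintype.card_fin]
  · right
    have : {y | y ∈ padL k D L ∧ y.length = m} = ∅ := by
      ext y
      constructor
      · rintro ⟨⟨z, hz, rfl⟩, hy⟩
        exact (h ⟨z, hz, hy⟩).elim
      · intro hy
        exact hy.elim
    rw [this, Set.ncard_empty]

end Pool.Agent.W2helper19.DL
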