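import Pool.Agent.W2helper68.DL.Stm2

/-!
# Job T, part 1: words of bi-infinite sequences
-/

set_option autoImplicit false

namespace Pool.Agent.W2helper19.DL

open Pool.Agent.W2helper68.DL

variable {A B : Type}

@[simp] theorem wd_length (x : ℤ → A) (i : ℤ) (n : ℕ) : (wd x i n).length = n := by
  simp [wd]

theorem wd_getElem? (x : ℤ → A) (i : ℤ) (n t : ℕ) (h : t < n) :
    (wd x i n)[t]? = some (x (i + t)) := by
  rw [List.getElem?_eq_getElem (by simpa using h)]
  simp [wd]

theorem wd_getElem?_ge (x : ℤ → A) (i : ℤ) (n t : ℕ) (h : n ≤ t) :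
    (wd x i n)[t]? = none := by
  rw [List.getElem?_eq_none]
  simpa using h

theorem wd_eq_iff (x : ℤ → A) (i j : ℤ) (n : ℕ) : wd x i n = wd x j n ↔ Agr x i j 0 n := by
  constructor
  · intro h t h1 h2
    have h3 : (wd x i n)[t.toNat]? = (wd x j n)[t.toNat]? := by rw [h]
    rw [wd_getElem? _ _ _ _ (by omega), wd_getElem? _ _ _ _ (by omega)] at h3
    have h4 := Option.some.inj h3
    rwa [Int.toNat_of_nonneg h1] at h4
  · intro h
    unfold wd
    congr 1
    funext t
    exact h _ (by omega) (by have := t.2; omega)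

theorem wd_append (x : ℤ → A) (i : ℤ) (m n : ℕ) :
    wd x i (m + n) = wd x i m ++ wd x (i + m) n := by
  apply List.ext_getElem?
  intro t
  by_cases h1 : t < m
  · rw [wd_getElem? _ _ _ _ (by omega), List.getElem?_append_left (by simpa using h1),
      wd_getElem? _ _ _ _ h1]
  · rw [List.getElem?_append_right (by simpa using h1)]
    by_cases h2 : t < m + n
    · rw [wd_getElem? _ _ _ _ h2, wd_length, wd_getElem? _ _ _ _ (by omega)]
      congr 2
      omega
    · rw [wd_getElem?_ge _ _ _ _ (by omega), wd_length, wd_getElem?_ge _ _ _ _ (by omega)]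

theorem wd_one (x : ℤ → A) (i : ℤ) : wd x i 1 = [x i] := by
  simp [wd]

theorem wd_tail (x : ℤ → A) (i : ℤ) (n : ℕ) : (wd x i (n + 1)).tail = wd x (i + 1) n := by
  rw [add_comm n 1, wd_append, wd_one]
  simp

theorem wd_dropLast (x : ℤ → A) (i : ℤ) (n : ℕ) : (wd x i (n + 1)).dropLast = wd x i n := by
  rw [wd_append, wd_one]
  simp

theorem wd_mem_Lang (x : ℤ → A) (i : ℤ) (n : ℕ) : wd x i n ∈ Lang x := by
  refine ⟨i, ?_⟩
  rw [wd_length]

/-- integer version -/
def wi (x : ℤ → A) (a b : ℤ) : List A := wd x a (b - a).toNat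

theorem wi_length (x : ℤ → A) {a b : ℤ} (h : a ≤ b) : ((wi x a b).length : ℤ) = b - a := by
  unfold wi
  rw [wd_length]
  omega

theorem wi_append (x : ℤ → A) {a b d : ℤ} (h1 : a ≤ b) (h2 : b ≤ d) :
    wi x a d = wi x a b ++ wi x b d := by
  unfold wi
  have e : (d - a).toNat = (b - a).toNat + (d - b).toNat := by omega
  rw [e, wd_append]
  congr 2
  omega

theorem wi_eq {x : ℤ → A} {a b a' b' : ℤ} (h : Agr x a a' 0 (b - a)) (e : b - a = b' - a') :
    wi x a b = wi x a' b' := by
  unfold wi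
  rw [← e, wd_eq_iff]
  intro t h1 h2
  exact h t h1 (by omega)

theorem agr_of_wi {x : ℤ → A} {a b a' b' : ℤ} (h : wi x a b = wi x a' b') (h1 : a ≤ b)
    (h2 : a' ≤ b') : b - a = b' - a' ∧ Agr x a a' 0 (b - a) := by
  have e : ((wi x a b).length : ℤ) = ((wi x a' b').length : ℤ) := by rw [h]
  rw [wi_length x h1, wi_length x h2] at e
  refine ⟨e, ?_⟩
  unfold wi at h
  rw [← e, wd_eq_iff] at h
  intro t h3 h4
  exact h t h3 (by omega)

/-- the image of a word -/
theorem wd_flatMap {φ : A → List B} {y : ℤ → A} {x : ℤ → B} {c : ℤ → ℤ} (h : IsSub φ y x c)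
    (p : ℤ) (n : ℕ) : (wd y p n).flatMap φ = wi x (c p) (c (p + n)) := by
  have hmono : ∀ m : ℕ, c p ≤ c (p + m) := by
    intro m
    induction m with
    | zero => simp
    | succ m ih =>
      have := h.step (p + m)
      push_cast
      rw [show p + ((m : ℤ) + 1) = p + m + 1 by ring]
      omega
  induction n with
  | zero => simp [wd, wi]
  | succ n ih =>
    rw [wd_append, List.flatMap_append, ih, wd_one]
    have hs := h.step (p + n)
    have e1 : p + ((n + 1 : ℕ) : ℤ) = p + n + 1 := by push_cast; ring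
    rw [e1, wi_append x (hmono n) (show c (p + n) ≤ c (p + n + 1) by omega)]
    congr 1
    simp only [List.flatMap_cons, List.flatMap_nil, List.append_nil]
    unfold wi
    apply List.ext_getElem?
    intro t
    have e2 : (c (p + n + 1) - c (p + n)).toNat = (φ (y (p + n))).length := by omega
    rw [e2]
    by_cases ht : t < (φ (y (p + n))).length
    · rw [wd_getElem? _ _ _ _ ht, List.getElem?_eq_getElem ht, h.val _ _ ht]
    · rw [wd_getElem?_ge _ _ _ _ (by omega), List.getElem?_eq_none (by omega)]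

theorem wi_flatMap {φ : A → List B} {y : ℤ → A} {x : ℤ → B} {c : ℤ → ℤ} (h : IsSub φ y x c)
    {p p' : ℤ} (hp : p ≤ p') : (wi y p p').flatMap φ = wi x (c p) (c p') := by
  unfold wi
  rw [wd_flatMap h]
  have e : p + ((p' - p).toNat : ℤ) = p' := by omega
  rw [e]
  rfl

theorem inU_wd (x : ℤ → A) (i : ℤ) (n Q D : ℕ) :
    InU Q D (wd x i n) ↔ ∃ q : ℤ, 1 ≤ q ∧ q ≤ Q ∧ Per x q (i + D) (i + n - D) := by
  unfold InU
  rw [wd_length]
  constructor
  · rintro ⟨q, h1, h2, h3⟩
    refine ⟨q, by omega, by omega, fun t h4 h5 => ?_⟩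
    have h6 := h3 (t - i).toNat (by omega) (by omega)
    rw [wd_getElem? _ _ _ _ (by omega), wd_getElem? _ _ _ _ (by omega)] at h6
    have h7 := Option.some.inj h6
    rw [show i + ((t - i).toNat : ℤ) = t by omega,
      show i + (((t - i).toNat + q : ℕ) : ℤ) = t + q by omega] at h7
    exact h7
  · rintro ⟨q, h1, h2, h3⟩
    refine ⟨q.toNat, by omega, by omega, fun t h4 h5 => ?_⟩
    rw [wd_getElem? _ _ _ _ (by omega), wd_getElem? _ _ _ _ (by omega)]
    have := h3 (i + t) (by omega) (by omega)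
    rw [this]
    congr 2
    omega

/-- integer version of `InU` -/
theorem inU_wi (x : ℤ → A) {a b : ℤ} (h : a ≤ b) (Q D : ℕ) :
    InU Q D (wi x a b) ↔ ∃ q : ℤ, 1 ≤ q ∧ q ≤ Q ∧ Per x q (a + D) (b - D) := by
  unfold wi
  rw [inU_wd]
  have e : a + ((b - a).toNat : ℤ) - D = b - D := by omega
  rw [e]

theorem wi_tail (x : ℤ → A) {a b : ℤ} (h : a < b) : (wi x a b).tail = wi x (a + 1) b := by
  unfold wi
  have e : (b - a).toNat = (b - (a + 1)).toNat + 1 := by omega
  rw [e, wd_tail]

theorem wi_dropLast (x : ℤ → A) {a b : ℤ} (h : a < b) :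
    (wi x a b).dropLast = wi x a (b - 1) := by
  unfold wi
  have e : (b - a).toNat = (b - 1 - a).toNat + 1 := by omega
  rw [e, wd_dropLast]

theorem wi_mem_Lang (x : ℤ → A) (a b : ℤ) : wi x a b ∈ Lang x := wd_mem_Lang _ _ _

theorem Lang_iff (x : ℤ → A) (w : List A) : w ∈ Lang x ↔ ∃ a : ℤ, w = wi x a (a + w.length) := by
  constructor
  · rintro ⟨i, hi⟩
    refine ⟨i, ?_⟩
    unfold wi
    rw [show (i + (w.length : ℤ) - i).toNat = w.length by omega]
    exact hi.symm
  · rintro ⟨i, hi⟩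
    rw [hi]
    exact wi_mem_Lang _ _ _

end Pool.Agent.W2helper19.DL
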