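import Pool.Agent.W2helper68.DL.Stm2

/-!
# Job T, part 2: runs, parents and children
-/

set_option autoImplicit false

namespace Pool.Agent.W2helper19.DL

open Pool.Agent.W2helper68.DL

variable {A B : Type}

/-- exact run `[a, b)` with a period `≤ Q` -/
def Rn (x : ℤ → A) (Q a b : ℤ) : Prop :=
  ∃ q, 1 ≤ q ∧ q ≤ Q ∧ Per x q a b ∧ x (a - 1) ≠ x (a - 1 + q) ∧ x b ≠ x (b - q)

theorem Rn.mono {x : ℤ → A} {Q Q' a b : ℤ} (h : Rn x Q a b) (hQ : Q ≤ Q') : Rn x Q' a b := by
  obtain ⟨q, h1, h2, h3⟩ := h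
  exact ⟨q, h1, by omega, h3⟩

/-- uniqueness of exact starts -/
theorem start_uniq {x : ℤ → A} {q a b q' a' b' : ℤ} (hq : 1 ≤ q) (hq' : 1 ≤ q')
    (h : Per x q a b) (he : x (a - 1) ≠ x (a - 1 + q))
    (h' : Per x q' a' b') (he' : x (a' - 1) ≠ x (a' - 1 + q'))
    (ho : max a a' + q + q' ≤ min b b') : a = a' := by
  have t1 := h.transfer hq hq' h' ho
  have t2 := h'.transfer hq' hq h (by rw [max_comm, min_comm]; omega)
  by_contra hne
  rcases lt_or_gt_of_ne hne with hlt | hlt
  · exact he' (t2 (a' - 1) (by omega) (by omega))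
  · exact he (t1 (a - 1) (by omega) (by omega))

/-- uniqueness of exact ends -/
theorem end_uniq {x : ℤ → A} {q a b q' a' b' : ℤ} (hq : 1 ≤ q) (hq' : 1 ≤ q')
    (h : Per x q a b) (he : x b ≠ x (b - q))
    (h' : Per x q' a' b') (he' : x b' ≠ x (b' - q'))
    (ho : max a a' + q + q' ≤ min b b') : b = b' := by
  have t1 := h.transfer hq hq' h' ho
  have t2 := h'.transfer hq' hq h (by rw [max_comm, min_comm]; omega)
  by_contra hne
  rcases lt_or_gt_of_ne hne with hlt | hlt
  · apply he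
    have := t1 (b - q) (by omega) (by omega)
    rw [this]; congr 1; ring
  · apply he'
    have := t2 (b' - q') (by omega) (by omega)
    rw [this]; congr 1; ring

theorem Rn.uniq {x : ℤ → A} {Q a b a' b' : ℤ} (h : Rn x Q a b) (h' : Rn x Q a' b')
    (ho : max a a' + 2 * Q ≤ min b b') : a = a' ∧ b = b' := by
  obtain ⟨q, h1, h2, h3, h4, h5⟩ := h
  obtain ⟨q', h1', h2', h3', h4', h5'⟩ := h'
  exact ⟨start_uniq h1 h1' h3 h4 h3' h4' (by omega), end_uniq h1 h1' h3 h5 h3' h5' (by omega)⟩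

/-- exactness does not depend on the period -/
theorem Rn.per_exact {x : ℤ → A} {Q a b q : ℤ} (h : Rn x Q a b) (hq : 1 ≤ q) (hp : Per x q a b)
    (hl : a + Q + q ≤ b) : x (a - 1) ≠ x (a - 1 + q) ∧ x b ≠ x (b - q) := by
  obtain ⟨q', h1, h2, h3, h4, h5⟩ := h
  constructor
  · intro he
    have : Per x q (a - 1) b := by
      intro t h6 h7
      by_cases ht : t = a - 1
      · rw [ht]; exact he
      · exact hp t (by omega) h7
    have t1 := h3.transfer h1 hq this (by omega)
    exact h4 (t1 (a - 1) (by omega) (by omega))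
  · intro he
    have : Per x q a (b + 1) := by
      intro t h6 h7
      by_cases ht : t + q = b
      · rw [ht, he]; congr 1; omega
      · exact hp t (by omega) (by omega)
    have t1 := h3.transfer h1 hq this (by omega)
    apply h5
    have := t1 (b - q') (by omega) (by omega)
    rw [this]; congr 1; ring

theorem Rn.change {x : ℤ → A} {Q a b q Q' : ℤ} (h : Rn x Q a b) (hq : 1 ≤ q) (hq' : q ≤ Q')
    (hp : Per x q a b) (hl : a + Q + q ≤ b) : Rn x Q' a b :=
  ⟨q, hq, hq', hp, h.per_exact hq hp hl⟩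

/-- maximal extension to the left -/
theorem ext_left {x : ℤ → A} {q a b : ℤ} (h : Per x q a b) (N : ℕ) (hN : ¬ Per x q (a - N) b) :
    ∃ n : ℕ, n < N ∧ Per x q (a - n) b ∧ x (a - n - 1) ≠ x (a - n - 1 + q) := by
  induction N with
  | zero => simp at hN; exact absurd h hN
  | succ N ih =>
    by_cases hc : Per x q (a - N) b
    · refine ⟨N, by omega, hc, fun he => hN ?_⟩
      intro t h1 h2
      push_cast at h1
      by_cases ht : t = a - N - 1
      · rw [ht]; exact he
      · exact hc t (by omega) h2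
    · obtain ⟨n, h1, h2⟩ := ih hc
      exact ⟨n, by omega, h2⟩

/-- maximal extension to the right -/
theorem ext_right {x : ℤ → A} {q a b : ℤ} (h : Per x q a b) (N : ℕ) (hN : ¬ Per x q a (b + N)) :
    ∃ n : ℕ, n < N ∧ Per x q a (b + n) ∧ x (b + n) ≠ x (b + n - q) := by
  induction N with
  | zero => simp at hN; exact absurd h hN
  | succ N ih =>
    by_cases hc : Per x q a (b + N)
    · refine ⟨N, by omega, hc, fun he => hN ?_⟩
      intro t h1 h2
      push_cast at h2
      by_cases ht : t + q = b + N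
      · rw [ht, he]; congr 1; omega
      · exact hc t h1 (by omega)
    · obtain ⟨n, h1, h2⟩ := ih hc
      exact ⟨n, by omega, h2⟩

section
variable {y : ℤ → A} {x : ℤ → B} {c : ℤ → ℤ} {Λ K Q0 : ℤ}

/-- image of a periodic stretch -/
theorem img (h : Cut y x c Λ) {s P P' : ℤ} (hs : 1 ≤ s) (hl : P + s ≤ P') (hp : Per y s P P') :
    Per x (c (P + s) - c P) (c P) (c P') ∧ c P' - c (P' - s) = c (P + s) - c P := by
  obtain ⟨h1, h2⟩ := h.agr (p := P) (q := P + s) (a := 0) (b := P' - s - P) le_rfl (by omega) (by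
    intro t h1 h2
    have := hp (P + t) (by omega) (by omega)
    rw [this]; congr 1; ring)
  have h3 := h1 (P' - s - P) (by omega) le_rfl
  rw [show P + (P' - s - P) = P' - s by ring, show P + s + (P' - s - P) = P' by ring] at h3
  refine ⟨fun t h4 h5 => ?_, by omega⟩
  rw [show P + (P' - s - P) = P' - s by ring, add_zero] at h2
  have := h2 (t - c P) (by omega) (by omega)
  rw [show c P + (t - c P) = t by ring] at this
  rw [this]; congr 1; ring

/-- parent period -/
theorem par (h : Syn y x c Λ K Q0) {q a b : ℤ} (hq : 1 ≤ q) (hp : Per x q a b)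
    (hl : a + Λ + Λ * q + 2 * K ≤ b) :
    ∃ s, 1 ≤ s ∧ s ≤ q ∧ ∀ t, a + K ≤ c (t + 1) → c (t + s) + K ≤ b → y t = y (t + s) := by
  have hΛ := h.two_le
  have hK := h.K0
  obtain ⟨r0, hr1, hr2⟩ := h.exists_cut (a + K)
  have hr3 : c r0 ≤ a + K + Λ := by
    have := h.hi (r0 - 1); rw [show r0 - 1 + 1 = r0 by ring] at this; omega
  -- pigeonhole
  obtain ⟨r1, r2, hr01, hr12, hr2q, k, hk⟩ : ∃ r1 r2 : ℤ, r0 ≤ r1 ∧ r1 < r2 ∧ r2 ≤ r0 + q ∧
      ∃ k : ℕ, c r2 - c r1 = k * q := by
    let f : Fin (q.toNat + 1) → Fin q.toNat := fun i =>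
      ⟨((c (r0 + i)) % q).toNat, by
        have h1 := Int.emod_lt_of_pos (c (r0 + i)) (show 0 < q by omega)
        have h2 := Int.emod_nonneg (c (r0 + i)) (show q ≠ 0 by omega)
        omega⟩
    obtain ⟨i, j, hij, hf⟩ := Fintype.exists_ne_map_eq_of_card_lt f (by simp)
    have hmod : c (r0 + i) % q = c (r0 + j) % q := by
      have e := congrArg Fin.val hf
      simp only [f] at e
      have h2 := Int.emod_nonneg (c (r0 + i)) (show q ≠ 0 by omega)
      have h3 := Int.emod_nonneg (c (r0 + j)) (show q ≠ 0 by omega)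
      omega
    have main : ∀ i j : Fin (q.toNat + 1), i < j → c (r0 + i) % q = c (r0 + j) % q →
        ∃ r1 r2 : ℤ, r0 ≤ r1 ∧ r1 < r2 ∧ r2 ≤ r0 + q ∧ ∃ k : ℕ, c r2 - c r1 = k * q := by
      intro i j hlt hm
      have hij' : (i : ℕ) < j := hlt
      refine ⟨r0 + i, r0 + j, by omega, by omega, by have := j.2; omega, ?_⟩
      have hd : q ∣ c (r0 + j) - c (r0 + i) := Int.ModEq.dvd hm
      obtain ⟨k, hk⟩ := hd
      have hpos : c (r0 + i) < c (r0 + j) := h.lt_iff.2 (by omega)
      have hk0 : 0 ≤ k := by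
        by_contra hc
        have : q * k ≤ 0 := by nlinarith
        omega
      refine ⟨k.toNat, ?_⟩
      rw [Int.toNat_of_nonneg hk0, hk]; ring
    rcases lt_or_gt_of_ne hij with hlt | hlt
    · exact main i j hlt hmod
    · exact main j i hlt hmod.symm
  have hcr2 : c r2 ≤ c r0 + Λ * q := by
    have h1 := h.add_hi (show r0 ≤ r2 by omega)
    have h2 : Λ * (r2 - r0) ≤ Λ * q := by nlinarith
    omega
  have hkq : (0 : ℤ) ≤ k * q := by positivity
  have hmul := hp.mul (by omega) k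
  have hcr1 : a + K ≤ c r1 := hr1.trans (h.mono hr01)
  refine ⟨r2 - r1, by omega, by omega, ?_⟩
  -- to the right
  have right : ∀ m : ℕ, (c (r1 + m + (r2 - r1)) + K ≤ b →
      c (r1 + m + (r2 - r1)) - c (r1 + m) = k * q ∧ y (r1 + m) = y (r1 + m + (r2 - r1))) := by
    intro m
    induction m with
    | zero =>
      intro hb
      have e0 : c (r1 + ((0 : ℕ) : ℤ) + (r2 - r1)) - c (r1 + ((0 : ℕ) : ℤ)) = k * q := by
        rw [show r1 + ((0 : ℕ) : ℤ) + (r2 - r1) = r2 by push_cast; ring,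
          show r1 + ((0 : ℕ) : ℤ) = r1 by push_cast; ring]
        exact hk
      refine ⟨e0, h.DR _ _ ?_⟩
      intro t h1 h2
      have hge : c r1 ≤ c (r1 + ((0 : ℕ) : ℤ)) := h.mono (by omega)
      have := hmul (c (r1 + ((0 : ℕ) : ℤ)) + t) (by omega) (by omega)
      rw [this]; congr 1; omega
    | succ m ih =>
      intro hb
      have hmn : c (r1 + m + (r2 - r1)) ≤ c (r1 + ((m + 1 : ℕ) : ℤ) + (r2 - r1)) :=
        h.mono (by push_cast; omega)
      obtain ⟨e1, e2⟩ := ih (by omega)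
      obtain ⟨e3, -⟩ := h.det _ _ e2
      have e4 : c (r1 + ((m + 1 : ℕ) : ℤ) + (r2 - r1)) - c (r1 + ((m + 1 : ℕ) : ℤ)) = k * q := by
        rw [show r1 + ((m + 1 : ℕ) : ℤ) + (r2 - r1) = r1 + m + (r2 - r1) + 1 by push_cast; ring,
          show r1 + ((m + 1 : ℕ) : ℤ) = r1 + m + 1 by push_cast; ring]
        omega
      refine ⟨e4, h.DR _ _ ?_⟩
      intro t h1 h2
      have hge : c r1 ≤ c (r1 + ((m + 1 : ℕ) : ℤ)) := h.mono (by omega)
      have := hmul (c (r1 + ((m + 1 : ℕ) : ℤ)) + t) (by omega) (by omega)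
      rw [this]; congr 1; omega
  -- to the left
  have left : ∀ m : ℕ, (a + K ≤ c (r1 - m) →
      c (r1 - m + (r2 - r1)) - c (r1 - m) = k * q ∧ y (r1 - m - 1) = y (r1 - m + (r2 - r1) - 1)) := by
    intro m
    induction m with
    | zero =>
      intro _
      have e0 : c (r1 - ((0 : ℕ) : ℤ) + (r2 - r1)) - c (r1 - ((0 : ℕ) : ℤ)) = k * q := by
        rw [show r1 - ((0 : ℕ) : ℤ) + (r2 - r1) = r2 by push_cast; ring,
          show r1 - ((0 : ℕ) : ℤ) = r1 by push_cast; ring]
        exact hk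
      refine ⟨e0, h.DL _ _ ?_⟩
      intro t h1 h2
      have e1 : c (r1 - ((0 : ℕ) : ℤ)) = c r1 := by simp
      have e2 : c (r1 - ((0 : ℕ) : ℤ) + (r2 - r1)) = c r2 := by
        congr 1; push_cast; ring
      have := hmul (c (r1 - ((0 : ℕ) : ℤ)) + t) (by omega) (by omega)
      rw [this]; congr 1; omega
    | succ m ih =>
      intro hb
      have hmn : c (r1 - ((m + 1 : ℕ) : ℤ)) ≤ c (r1 - m) := h.mono (by push_cast; omega)
      obtain ⟨e1, e2⟩ := ih (by omega)
      obtain ⟨e3, -⟩ := h.det _ _ e2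
      rw [show r1 - (m : ℤ) - 1 + 1 = r1 - m by ring,
        show r1 - (m : ℤ) + (r2 - r1) - 1 + 1 = r1 - m + (r2 - r1) by ring] at e3
      have e4 : c (r1 - ((m + 1 : ℕ) : ℤ) + (r2 - r1)) - c (r1 - ((m + 1 : ℕ) : ℤ)) = k * q := by
        rw [show r1 - ((m + 1 : ℕ) : ℤ) + (r2 - r1) = r1 - m + (r2 - r1) - 1 by push_cast; ring,
          show r1 - ((m + 1 : ℕ) : ℤ) = r1 - m - 1 by push_cast; ring]
        omega
      refine ⟨e4, h.DL _ _ ?_⟩
      intro t h1 h2
      have hge : c (r1 - ((m + 1 : ℕ) : ℤ)) ≤ c r1 := h.mono (by omega)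
      have := hmul (c (r1 - ((m + 1 : ℕ) : ℤ)) + t) (by omega) (by omega)
      rw [this]; congr 1; omega
  intro t h1 h2
  by_cases hc : r1 ≤ t
  · have := (right (t - r1).toNat (by
      rw [show r1 + ((t - r1).toNat : ℤ) = t by omega]; exact h2)).2
    rw [show r1 + ((t - r1).toNat : ℤ) = t by omega] at this
    exact this
  · have := (left (r1 - (t + 1)).toNat (by
      rw [show r1 - ((r1 - (t + 1)).toNat : ℤ) = t + 1 by omega]; exact h1)).2
    rw [show r1 - ((r1 - (t + 1)).toNat : ℤ) = t + 1 by omega] at this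
    rw [show t + 1 - 1 = t by ring, show t + 1 + (r2 - r1) - 1 = t + (r2 - r1) by ring] at this
    exact this

/-- the child run -/
theorem child (h : Syn y x c Λ K Q0) {p p' Q : ℤ} (hR : Rn y Q p p') (hl : p + Q ≤ p') :
    ∃ a b, c p - K < a ∧ a ≤ c p ∧ c p' ≤ b ∧ b < c p' + K ∧ Rn x (Λ * Q) a b := by
  obtain ⟨q, hq1, hq2, hper, hL, hRt⟩ := hR
  have hK := h.K0
  have hΛ := h.two_le
  obtain ⟨i1, i2⟩ := img h.toCut hq1 (by omega) hper
  set Q1 := c (p + q) - c p with hQ1
  have hQ1lo : 2 * q ≤ Q1 := by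
    have := h.add_le (show p ≤ p + q by omega); omega
  have hQ1hi : Q1 ≤ Λ * Q := by
    have h1 := h.add_hi (show p ≤ p + q by omega)
    have h2 : Λ * (p + q - p) ≤ Λ * Q := by nlinarith
    omega
  have hcp : c (p + q) ≤ c p' := h.mono (by omega)
  have nl : ¬ Per x Q1 (c p - (K.toNat : ℤ)) (c p') := by
    intro hc
    apply hL
    have := h.DL p (p + q) (by
      intro t h1 h2
      have := hc (c p + t) (by omega) (by omega)
      rw [this]; congr 1; omega)
    rw [this]; congr 1; ring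
  obtain ⟨n, hn1, hn2, hn3⟩ := ext_left i1 K.toNat nl
  have nr : ¬ Per x Q1 (c p - n) (c p' + (K.toNat : ℤ)) := by
    intro hc
    apply hRt
    refine h.DR p' (p' - q) ?_
    intro t h1 h2
    have hge : c p ≤ c (p' - q) := h.mono (by omega)
    have := hc (c (p' - q) + t) (by omega) (by omega)
    rw [this]; congr 1; omega
  obtain ⟨n', hn1', hn2', hn3'⟩ := ext_right hn2 K.toNat nr
  refine ⟨c p - n, c p' + n', by omega, by omega, by omega, by omega, Q1, by omega, hQ1hi,
    hn2', hn3, hn3'⟩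

/-- the parent run -/
theorem parent (h : Syn y x c Λ K Q0) {a b Q : ℤ} (hR : Rn x Q a b)
    (hl : a + 2 * Λ * (Q + 1) + Q + 4 * K ≤ b) :
    ∃ p p', a ≤ c p ∧ c p < a + K ∧ b - K < c p' ∧ c p' ≤ b ∧ Rn y Q p p' := by
  obtain ⟨q, hq1, hq2, hper, hL, hRt⟩ := hR
  have hK := h.K0
  have hΛ := h.two_le
  have hΛq : Λ * q ≤ Λ * Q := by nlinarith
  have hΛq0 : 0 ≤ Λ * q := by positivity
  have hexp : 2 * Λ * (Q + 1) = 2 * (Λ * Q) + 2 * Λ := by ring
  obtain ⟨s, hs1, hs2, hs3⟩ := par h hq1 hper (by omega)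
  -- the stretch
  obtain ⟨P, hP1, hP2⟩ := h.exists_cut (a + K)
  obtain ⟨P', hP1', hP2'⟩ := h.exists_cut' (b - K)
  -- work with P - 1 and P' + 1
  have hper1 : Per y s (P - 1) (P' + 1) := by
    intro t h1 h2
    refine hs3 t ?_ ?_
    · exact hP1.trans (h.mono (by omega))
    · have : c (t + s) ≤ c P' := h.mono (by omega)
      omega
  have hP3 : c P ≤ c (P - 1) + Λ := by
    have := h.hi (P - 1); rwa [show P - 1 + 1 = P by ring] at this
  have hP3' := h.hi P'
  have hΛs : Λ * s ≤ Λ * q := by nlinarith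
  have hlen : P - 1 + s ≤ P' + 1 := by
    have h1 := h.add_hi (show P - 1 ≤ P - 1 + s by omega)
    rw [show P - 1 + s - (P - 1) = s by ring] at h1
    exact h.le_iff.1 (show c (P - 1 + s) ≤ c (P' + 1) by omega)
  -- general contradiction statements
  have contrL : ∀ r, r ≤ P - 1 → Per y s r (P' + 1) → a ≤ c r := by
    intro r hr1 hr2
    by_contra hc
    push Not at hc
    obtain ⟨i1, i2⟩ := img h.toCut hs1 (show r + s ≤ P' + 1 by omega) hr2
    have hb1 := h.add_hi (show r ≤ r + s by omega)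
    rw [show r + s - r = s by ring] at hb1
    have hb2 := h.add_le (show r ≤ r + s by omega)
    have t1 := hper.transfer hq1 (by omega) i1 (by
      have h1 : c (P' + 1) > b - K := by omega
      omega)
    exact hL (t1 (a - 1) (by omega) (by omega))
  have contrR : ∀ r r', r ≤ P - 1 → a ≤ c r → P' + 1 ≤ r' → Per y s r r' → c r' ≤ b := by
    intro r r' hr1 hr0 hr2 hr3
    by_contra hc
    push Not at hc
    obtain ⟨i1, i2⟩ := img h.toCut hs1 (show r + s ≤ r' by omega) hr3
    have hb1 := h.add_hi (show r ≤ r + s by omega)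
    rw [show r + s - r = s by ring] at hb1
    have hb2 := h.add_le (show r ≤ r + s by omega)
    have hb3 : c r ≤ c (P - 1) := h.mono hr1
    have t1 := hper.transfer hq1 (by omega) i1 (by omega)
    apply hRt
    have := t1 (b - q) (by omega) (by omega)
    rw [this]; congr 1; ring
  -- left end
  have nl : ¬ Per y s (P - 1 - (K.toNat : ℤ)) (P' + 1) := by
    intro hc
    have h1 := contrL _ (by omega) hc
    have h2 := h.add_le (show P - 1 - (K.toNat : ℤ) ≤ P - 1 by omega)
    omega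
  obtain ⟨n, hn1, hn2, hn3⟩ := ext_left hper1 K.toNat nl
  have ha := contrL _ (by omega) hn2
  have nr : ¬ Per y s (P - 1 - n) (P' + 1 + (K.toNat : ℤ)) := by
    intro hc
    have h1 := contrR _ _ (by omega) ha (by omega) hc
    have h2 := h.add_le (show P' + 1 ≤ P' + 1 + (K.toNat : ℤ) by omega)
    omega
  obtain ⟨n', hn1', hn2', hn3'⟩ := ext_right hn2 K.toNat nr
  have hb := contrR _ _ (by omega) ha (by omega) hn2'
  have hmn : c (P - 1 - n) ≤ c (P - 1) := h.mono (by omega)
  have hmn' : c (P' + 1) ≤ c (P' + 1 + n') := h.mono (by omega)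
  refine ⟨P - 1 - n, P' + 1 + n', ha, by omega, by omega, hb, s, hs1, by omega, hn2', hn3, hn3'⟩

end

end Pool.Agent.W2helper19.DL
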