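import Pool.Agent.W2helper19.DL.T1
import Pool.Agent.W2helper19.DL.T2

/-!
# Job T, part 3: rigidity, matching of starts and ends, types
-/

set_option autoImplicit false

namespace Pool.Agent.W2helper19.DL

open Pool.Agent.W2helper68.DL

variable {A B : Type}

/-- rigidity of runs of `y` -/
theorem rigRun (hR : JobR) [Finite A] {y : ℤ → A} {e : ℤ → ℤ} {Λ K Q0 : ℤ}
    (h : Syn y y e Λ K Q0) {Q : ℤ} (hQ : Q0 ≤ Q) :
    ∃ c0 : ℤ, 0 ≤ c0 ∧ ∀ D1 : ℤ, ∃ M : ℤ, ∀ p1 p1' p2 p2' : ℤ, Rn y Q p1 p1' → Rn y Q p2 p2' →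
      M ≤ p1' - p1 → p1' - p1 = p2' - p2 → Agr y p1 p2 (-c0) (p1' - p1 + c0) →
      Agr y p1 p2 (-D1) (p1' - p1 + D1) := by
  obtain ⟨-, cL, hcL, hL⟩ := hR A y e Λ K Q0 h Q hQ
  obtain ⟨-, cR, hcR, hRr⟩ := hR A (rv y) (rvc e) Λ K Q0 h.rev Q hQ
  refine ⟨max cL cR, by omega, fun D1 => ?_⟩
  obtain ⟨ML, hML⟩ := hL D1
  obtain ⟨MR, hMR⟩ := hRr D1
  refine ⟨max (max ML MR) (2 * Q), ?_⟩
  intro p1 p1' p2 p2' h1 h2 hM hlen hag
  obtain ⟨q, hq1, hq2, hper, hsL, hsR⟩ := h1
  have hper2 : Per y q p2 p2' := by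
    intro t ht1 ht2
    have e1 := hag (t - p2) (by omega) (by omega)
    have e2 := hag (t - p2 + q) (by omega) (by omega)
    have e3 := hper (p1 + (t - p2)) (by omega) (by omega)
    rw [show p2 + (t - p2) = t by ring] at e1
    rw [show p2 + (t - p2 + q) = t + q by ring] at e2
    rw [← e1, ← e2, e3]; congr 1; ring
  obtain ⟨hsL2, hsR2⟩ := h2.per_exact hq1 hper2 (by omega)
  have g1 : Agr y p1 p2 (-D1) 0 := by
    refine hML q p1 p2 hq1 hq2 (hper.mono le_rfl (by omega)) hsL (hper2.mono le_rfl (by omega)) hsL2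
      (hag.mono (by omega) (by omega))
  have g2 : Agr y p1' p2' 0 D1 := by
    have k := hMR q (-p1') (-p2') hq1 hq2
      (by
        have := (hper.mono (show p1 ≤ p1' - MR by omega) le_rfl).rv
        rwa [show -(p1' - MR) = -p1' + MR by ring] at this)
      (by
        unfold Pool.Agent.W2helper68.DL.rv
        rw [show -1 - (-p1' - 1) = p1' by ring, show -1 - (-p1' - 1 + q) = p1' - q by ring]
        exact hsR)
      (by
        have := (hper2.mono (show p2 ≤ p2' - MR by omega) le_rfl).rv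
        rwa [show -(p2' - MR) = -p2' + MR by ring] at this)
      (by
        unfold Pool.Agent.W2helper68.DL.rv
        rw [show -1 - (-p2' - 1) = p2' by ring, show -1 - (-p2' - 1 + q) = p2' - q by ring]
        exact hsR2)
      (by
        have := (hag.shift' (i' := p1') (j' := p2') (a' := -MR) (b' := cR) (by omega) (by omega)
          (by omega)).rv
        rwa [neg_neg] at this)
    have k2 := k.rv
    rw [rv_rv] at k2
    simpa using k2
  intro t ht1 ht2
  by_cases hc1 : t < 0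
  · exact g1 t ht1 hc1
  · by_cases hc2 : t < p1' - p1
    · exact hag t (by omega) (by omega)
    · have := g2 (t - (p1' - p1)) (by omega) (by omega)
      rw [show p1' + (t - (p1' - p1)) = p1 + t by ring,
        show p2' + (t - (p1' - p1)) = p2 + t by omega] at this
      exact this

/-- starts in agreeing windows -/
theorem start_match {x : ℤ → A} {Q C1 C2 E F q1 q2 a1 b1 a2 b2 : ℤ}
    (hA : Agr x C1 C2 (-E) F)
    (h1 : 1 ≤ q1) (h1' : q1 ≤ Q) (hp1 : Per x q1 a1 b1) (he1 : x (a1 - 1) ≠ x (a1 - 1 + q1))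
    (h2 : 1 ≤ q2) (h2' : q2 ≤ Q) (hp2 : Per x q2 a2 b2) (he2 : x (a2 - 1) ≠ x (a2 - 1 + q2))
    (l1 : C1 - E < a1) (u1 : a1 ≤ C1) (v1 : C1 + F ≤ b1)
    (u2 : a2 ≤ C2) (v2 : C2 + F ≤ b2) (hF : 2 * Q ≤ F) : C1 - a1 = C2 - a2 := by
  have hp : Per x q1 (a1 - C1 + C2) (C2 + F) := by
    intro t ht1 ht2
    have e1 := hA (t - C2) (by omega) (by omega)
    have e2 := hA (t - C2 + q1) (by omega) (by omega)
    have e3 := hp1 (C1 + (t - C2)) (by omega) (by omega)
    rw [show C2 + (t - C2) = t by ring] at e1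
    rw [show C2 + (t - C2 + q1) = t + q1 by ring] at e2
    rw [← e1, ← e2, e3]; congr 1; ring
  have he : x (a1 - C1 + C2 - 1) ≠ x (a1 - C1 + C2 - 1 + q1) := by
    have e1 := hA (a1 - C1 - 1) (by omega) (by omega)
    have e2 := hA (a1 - C1 - 1 + q1) (by omega) (by omega)
    rw [show C1 + (a1 - C1 - 1) = a1 - 1 by ring,
      show C2 + (a1 - C1 - 1) = a1 - C1 + C2 - 1 by ring] at e1
    rw [show C1 + (a1 - C1 - 1 + q1) = a1 - 1 + q1 by ring,
      show C2 + (a1 - C1 - 1 + q1) = a1 - C1 + C2 - 1 + q1 by ring] at e2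
    rw [← e1, ← e2]
    exact he1
  have := start_uniq h1 h2 hp he hp2 he2 (by omega)
  omega

/-- ends in agreeing windows -/
theorem end_match {x : ℤ → A} {Q C1 C2 E F q1 q2 a1 b1 a2 b2 : ℤ}
    (hA : Agr x C1 C2 (-F) E)
    (h1 : 1 ≤ q1) (h1' : q1 ≤ Q) (hp1 : Per x q1 a1 b1) (he1 : x b1 ≠ x (b1 - q1))
    (h2 : 1 ≤ q2) (h2' : q2 ≤ Q) (hp2 : Per x q2 a2 b2) (he2 : x b2 ≠ x (b2 - q2))
    (l1 : b1 < C1 + E) (u1 : C1 ≤ b1) (v1 : a1 ≤ C1 - F)
    (u2 : C2 ≤ b2) (v2 : a2 ≤ C2 - F) (hF : 2 * Q ≤ F) : b1 - C1 = b2 - C2 := by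
  have hp : Per x q1 (C2 - F) (b1 - C1 + C2) := by
    intro t ht1 ht2
    have e1 := hA (t - C2) (by omega) (by omega)
    have e2 := hA (t - C2 + q1) (by omega) (by omega)
    have e3 := hp1 (C1 + (t - C2)) (by omega) (by omega)
    rw [show C2 + (t - C2) = t by ring] at e1
    rw [show C2 + (t - C2 + q1) = t + q1 by ring] at e2
    rw [← e1, ← e2, e3]; congr 1; ring
  have he : x (b1 - C1 + C2) ≠ x (b1 - C1 + C2 - q1) := by
    have e1 := hA (b1 - C1) (by omega) (by omega)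
    have e2 := hA (b1 - C1 - q1) (by omega) (by omega)
    rw [show C1 + (b1 - C1) = b1 by ring,
      show C2 + (b1 - C1) = b1 - C1 + C2 by ring] at e1
    rw [show C1 + (b1 - C1 - q1) = b1 - q1 by ring,
      show C2 + (b1 - C1 - q1) = b1 - C1 + C2 - q1 by ring] at e2
    rw [← e1, ← e2]
    exact he1
  have := end_uniq h1 h2 hp he hp2 he2 (by omega)
  omega

/-- types of runs: left window `[p - D, p + E)`, right window `[p' - E, p' + D)` -/
abbrev Ty (A : Type) (N : ℕ) := (Fin N → A) × (Fin N → A)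

/-- type of a run -/
def ty (y : ℤ → A) (D E : ℕ) (p p' : ℤ) : Ty A (D + E) :=
  (fun i => y (p - D + (i : ℕ)), fun i => y (p' - E + (i : ℕ)))

theorem ty_eq_iff (y : ℤ → A) (D E : ℕ) (p1 p1' p2 p2' : ℤ) :
    ty y D E p1 p1' = ty y D E p2 p2' ↔ Agr y p1 p2 (-D) E ∧ Agr y p1' p2' (-E) D := by
  unfold ty
  rw [Prod.mk.injEq]
  constructor
  · rintro ⟨h1, h2⟩
    constructor
    · intro t ht1 ht2
      have := congrFun h1 ⟨(t + D).toNat, by omega⟩
      simp only at this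
      rw [show p1 - D + ((t + D).toNat : ℤ) = p1 + t by omega,
        show p2 - D + ((t + D).toNat : ℤ) = p2 + t by omega] at this
      exact this
    · intro t ht1 ht2
      have := congrFun h2 ⟨(t + E).toNat, by omega⟩
      simp only at this
      rw [show p1' - E + ((t + E).toNat : ℤ) = p1' + t by omega,
        show p2' - E + ((t + E).toNat : ℤ) = p2' + t by omega] at this
      exact this
  · rintro ⟨h1, h2⟩
    constructor
    · funext i
      have hi := i.2
      have := h1 (-D + (i : ℕ)) (by omega) (by omega)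
      rw [show p1 + (-(D : ℤ) + (i : ℕ)) = p1 - D + (i : ℕ) by ring,
        show p2 + (-(D : ℤ) + (i : ℕ)) = p2 - D + (i : ℕ) by ring] at this
      exact this
    · funext i
      have hi := i.2
      have := h2 (-E + (i : ℕ)) (by omega) (by omega)
      rw [show p1' + (-(E : ℤ) + (i : ℕ)) = p1' - E + (i : ℕ) by ring,
        show p2' + (-(E : ℤ) + (i : ℕ)) = p2' - E + (i : ℕ) by ring] at this
      exact this

/-- factorization through a map -/
theorem exists_factor {δ τ X : Type} [Nonempty X] (P : δ → Prop) (t : δ → τ) (f : δ → X)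
    (h : ∀ d d', P d → P d' → t d = t d' → f d = f d') : ∃ F : τ → X, ∀ d, P d → f d = F (t d) := by
  classical
  refine ⟨fun s => if hs : ∃ d, P d ∧ t d = s then f (Classical.choose hs)
    else Classical.arbitrary X, fun d hd => ?_⟩
  have hs : ∃ d', P d' ∧ t d' = t d := ⟨d, hd, rfl⟩
  simp only
  rw [dif_pos hs]
  obtain ⟨h1, h2⟩ := Classical.choose_spec hs
  exact h _ _ hd h1 h2.symm

/-- `[a, b)` is in child position of the run `[p, p')` -/
def Pos (y : ℤ → A) (x : ℤ → B) (c : ℤ → ℤ) (K Q M p p' a b : ℤ) : Prop :=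
  p + M ≤ p' ∧ Rn y Q p p' ∧ Rn x Q a b ∧ c p - K < a ∧ a ≤ c p ∧ c p' ≤ b ∧ b < c p' + K

section
variable {y : ℤ → A} {x : ℤ → B} {c : ℤ → ℤ} {Λ K Q0 : ℤ}

/-- windows of children of runs of the same type -/
theorem pos_agr (h : Syn y x c Λ K Q0) {Q M p1 p1' a1 b1 p2 p2' a2 b2 : ℤ} {D E : ℕ}
    (hE : 2 * Q ≤ E) (hEM : (E : ℤ) ≤ M) (hD : K ≤ D)
    (h1 : Pos y x c K Q M p1 p1' a1 b1) (h2 : Pos y x c K Q M p2 p2' a2 b2)
    (ht : ty y D E p1 p1' = ty y D E p2 p2') :
    c p1 - a1 = c p2 - a2 ∧ b1 - c p1' = b2 - c p2' ∧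
      Agr x a1 a2 (-2 * D + K) E ∧ Agr x b1 b2 (-E) (2 * D - K) := by
  obtain ⟨m1, -, ⟨q1, hq1, hq1', hper1, hL1, hR1⟩, u1, u1', v1, v1'⟩ := h1
  obtain ⟨m2, -, ⟨q2, hq2, hq2', hper2, hL2, hR2⟩, u2, u2', v2, v2'⟩ := h2
  obtain ⟨tl, tr⟩ := (ty_eq_iff _ _ _ _ _ _ _).1 ht
  have hK := h.K0
  have al := (h.agr (by omega) (by omega) tl).2
  have ar := (h.agr (by omega) (by omega) tr).2
  have w1 := h.add_le (show p1 + -(D : ℤ) ≤ p1 by omega)
  have w2 := h.add_le (show p1 ≤ p1 + (E : ℤ) by omega)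
  have w3 := h.add_le (show p1' + -(E : ℤ) ≤ p1' by omega)
  have w4 := h.add_le (show p1' ≤ p1' + (D : ℤ) by omega)
  have al' : Agr x (c p1) (c p2) (-(2 * D)) (2 * E) := al.mono (by omega) (by omega)
  have ar' : Agr x (c p1') (c p2') (-(2 * E)) (2 * D) := ar.mono (by omega) (by omega)
  have z1 := h.add_le (show p1 ≤ p1' by omega)
  have z2 := h.add_le (show p2 ≤ p2' by omega)
  by_cases hD0 : D = 0
  · -- then K = 0, impossible
    omega
  have s1 : c p1 - a1 = c p2 - a2 :=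
    start_match (Q := Q) al' hq1 hq1' hper1 hL1 hq2 hq2' hper2 hL2 (by omega) (by omega) (by omega)
      (by omega) (by omega) (by omega)
  have s2 : b1 - c p1' = b2 - c p2' :=
    end_match (Q := Q) ar' hq1 hq1' hper1 hR1 hq2 hq2' hper2 hR2 (by omega) (by omega) (by omega)
      (by omega) (by omega) (by omega)
  exact ⟨s1, s2, al'.shift' (by omega) (by omega) (by omega),
    ar'.shift' (by omega) (by omega) (by omega)⟩

/-- the extension words of a type -/
theorem exists_LR (h : Syn y x c Λ K Q0) {Q M : ℤ} {D E : ℕ} (m : ℕ)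
    (hE : 2 * Q ≤ E) (hEM : (E : ℤ) ≤ M) (hD : K ≤ D) (hm : m + K ≤ 2 * D) :
    ∃ L R : Ty A (D + E) → List B, ∀ p p' a b, Pos y x c K Q M p p' a b →
      wi x (a - m) (c p) = L (ty y D E p p') ∧ wi x (c p') (b + m) = R (ty y D E p p') := by
  have key := exists_factor (δ := ℤ × ℤ × ℤ × ℤ) (τ := Ty A (D + E)) (X := List B × List B)
    (fun d => Pos y x c K Q M d.1 d.2.1 d.2.2.1 d.2.2.2) (fun d => ty y D E d.1 d.2.1)
    (fun d => (wi x (d.2.2.1 - m) (c d.1), wi x (c d.2.1) (d.2.2.2 + m))) (by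
      rintro ⟨p1, p1', a1, b1⟩ ⟨p2, p2', a2, b2⟩ h1 h2 ht
      simp only at h1 h2 ht ⊢
      obtain ⟨s1, s2, g1, g2⟩ := pos_agr h hE hEM hD h1 h2 ht
      obtain ⟨m1, -, -, u1, u1', v1, v1'⟩ := h1
      obtain ⟨m2, -, -, u2, u2', v2, v2'⟩ := h2
      have hK := h.K0
      obtain ⟨tl, tr⟩ := (ty_eq_iff _ _ _ _ _ _ _).1 ht
      have al := (h.agr (by omega) (by omega) tl).2
      have ar := (h.agr (by omega) (by omega) tr).2
      have w1 := h.add_le (show p1 + -(D : ℤ) ≤ p1 by omega)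
      have w2 := h.add_le (show p1 ≤ p1 + (E : ℤ) by omega)
      have w3 := h.add_le (show p1' + -(E : ℤ) ≤ p1' by omega)
      have w4 := h.add_le (show p1' ≤ p1' + (D : ℤ) by omega)
      have al' : Agr x (c p1) (c p2) (-(2 * D)) (2 * E) := al.mono (by omega) (by omega)
      have ar' : Agr x (c p1') (c p2') (-(2 * E)) (2 * D) := ar.mono (by omega) (by omega)
      rw [Prod.mk.injEq]
      constructor
      · exact wi_eq (al'.shift' (by omega) (by omega) (by omega)) (by omega)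
      · exact wi_eq (ar'.shift' (by omega) (by omega) (by omega)) (by omega))
  obtain ⟨F, hF⟩ := key
  refine ⟨fun s => (F s).1, fun s => (F s).2, fun p p' a b hp => ?_⟩
  have := hF (p, p', a, b) hp
  simp only at this
  exact ⟨congrArg Prod.fst this, congrArg Prod.snd this⟩

/-- long runs of `x` come from runs of `y` -/
theorem exists_parent (h : Syn y x c Λ K Q0) {Q M : ℤ} (hM : 0 ≤ M) :
    ∃ L : ℤ, ∀ a b, a + L ≤ b → Rn x Q a b → ∃ p p', Pos y x c K Q M p p' a b := by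
  have hK := h.K0
  have hΛ := h.two_le
  refine ⟨max (2 * Λ * (Q + 1) + Q + 4 * K) (Λ * M + 2 * K), fun a b hab hr => ?_⟩
  obtain ⟨p, p', h1, h2, h3, h4, h5⟩ := parent h hr (by omega)
  refine ⟨p, p', ?_, h5, hr, by omega, h1, h4, by omega⟩
  by_contra hc
  push Not at hc
  rcases le_or_gt p p' with hpp | hpp
  · have w1 := h.add_hi hpp
    have w2 : Λ * (p' - p) ≤ Λ * M := by nlinarith
    omega
  · have w1 := h.mono (show p' ≤ p by omega)
    have w2 : 0 ≤ Λ * M := by positivity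
    -- c p' ≤ c p < a + K, b - K < c p'
    have w3 : 0 < K := by omega
    omega

end

end Pool.Agent.W2helper19.DL
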