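import Pool.Agent.W2helper19.DL.T3

/-!
# Job T, part 4: counting words of runs of a given type; injectivity
-/

set_option autoImplicit false

namespace Pool.Agent.W2helper19.DL

open Pool.Agent.W2helper68.DL

section
variable {A B : Type}

/-- words of the long runs of a given type -/
def St (y : ℤ → A) (Q M : ℤ) (D E : ℕ) (τ : Ty A (D + E)) : Set (List A) :=
  {z | ∃ p p' : ℤ, p + M ≤ p' ∧ Rn y Q p p' ∧ ty y D E p p' = τ ∧ z = wi y p p'}

variable {y : ℤ → A} {x : ℤ → B} {c : ℤ → ℤ} {Λ K Q0 : ℤ}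

/-- replace the blocks of the letters which do not occur -/
theorem exists_sub' {φ : A → List B} (hφ : IsSub φ y x c) (h : Syn y x c Λ K Q0) :
    ∃ φ' : A → List B, IsSub φ' y x c ∧ ∀ b, 2 ≤ (φ' b).length := by
  classical
  have key : ∀ p, (if y p ∈ Set.range y then φ (y p) else [x 0, x 0]) = φ (y p) := by
    intro p
    rw [if_pos ⟨p, rfl⟩]
  refine ⟨fun b => if b ∈ Set.range y then φ b else [x 0, x 0], ⟨?_, ?_⟩, ?_⟩
  · intro p
    rw [key]
    exact hφ.step p
  · intro p t ht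
    have ht' : t < (φ (y p)).length := by rw [key] at ht; exact ht
    rw [hφ.val p t ht']
    simp only [key]
  · intro b
    by_cases hb : b ∈ Set.range y
    · simp only [if_pos hb]
      obtain ⟨p, rfl⟩ := hb
      have h1 := hφ.step p
      have h2 := h.lo p
      omega
    · simp only [if_neg hb]
      simp

theorem exists_child (h : Syn y x c Λ K Q0) {Q M : ℤ} (hQ : Λ * Q0 ≤ Q) {p p' : ℤ}
    (hR0 : Rn y Q0 p p') (hM : p + M ≤ p') (hQM : Q0 ≤ M) : ∃ a b, Pos y x c K Q M p p' a b := by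
  have hΛ := h.two_le
  have hQ01 := h.Q01
  have hQ0Q : Q0 ≤ Q := by nlinarith
  obtain ⟨a, b, h1, h2, h3, h4, h5⟩ := child h hR0 (by omega)
  exact ⟨a, b, hM, hR0.mono hQ0Q, h5.mono hQ, h1, h2, h3, h4⟩

theorem Pos.len (h : Syn y x c Λ K Q0) {Q M p p' a b : ℤ} (hM : 0 ≤ M)
    (hp : Pos y x c K Q M p p' a b) : a + 2 * M ≤ b := by
  obtain ⟨m, -, -, u, u', v, v'⟩ := hp
  have := h.add_le (show p ≤ p' by omega)
  omega

/-- concatenation in the child -/
theorem Pos.word {φ : A → List B} (hφ : IsSub φ y x c) (h : Syn y x c Λ K Q0)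
    {Q M p p' a b : ℤ} (hM : 0 ≤ M) (m : ℕ)
    (hp : Pos y x c K Q M p p' a b) :
    wi x (a - m) (c p) ++ (wi y p p').flatMap φ ++ wi x (c p') (b + m) = wi x (a - m) (b + m) := by
  obtain ⟨m1, -, -, u, u', v, v'⟩ := hp
  have := h.add_le (show p ≤ p' by omega)
  rw [wi_flatMap hφ (by omega), ← wi_append x (by omega) (by omega),
    ← wi_append x (by omega) (by omega)]

/-- moving a run -/
theorem Rn.move {y : ℤ → A} {Q p p' q : ℤ} (h : Rn y Q p p') (hl : p + Q ≤ p')
    (ha : Agr y p q (-1) (p' - p + 1)) : Rn y Q q (q + (p' - p)) := by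
  obtain ⟨r, h1, h2, h3, h4, h5⟩ := h
  refine ⟨r, h1, h2, ?_, ?_, ?_⟩
  · intro t ht1 ht2
    have e1 := ha (t - q) (by omega) (by omega)
    have e2 := ha (t - q + r) (by omega) (by omega)
    have e3 := h3 (p + (t - q)) (by omega) (by omega)
    rw [show q + (t - q) = t by ring] at e1
    rw [show q + (t - q + r) = t + r by ring] at e2
    rw [← e1, ← e2, e3]; congr 1; ring
  · have e1 := ha (-1) (by omega) (by omega)
    have e2 := ha (-1 + r) (by omega) (by omega)
    rw [show q + -1 = q - 1 by ring, show p + -1 = p - 1 by ring] at e1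
    rw [show q + (-1 + r) = q - 1 + r by ring, show p + (-1 + r) = p - 1 + r by ring] at e2
    rw [← e1, ← e2]
    exact h4
  · have e1 := ha (p' - p) (by omega) (by omega)
    have e2 := ha (p' - p - r) (by omega) (by omega)
    rw [show p + (p' - p) = p' by ring] at e1
    rw [show p + (p' - p - r) = p' - r by ring,
      show q + (p' - p - r) = q + (p' - p) - r by ring] at e2
    rw [← e1, ← e2]
    exact h5

/-- equal words of child runs with margins come from equal parents -/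
theorem run_inj (h : Syn y x c Λ K Q0) {Q M s m : ℤ} (hs : 1 ≤ s) (hm : Λ * s + K ≤ m)
    (hQ0Q : Q0 ≤ Q) (hM : 2 * Q + K ≤ M) {p1 p1' a1 b1 p2 p2' a2 b2 : ℤ}
    (h1 : Pos y x c K Q M p1 p1' a1 b1) (h2 : Pos y x c K Q M p2 p2' a2 b2)
    (hw : wi x (a1 - m) (b1 + m) = wi x (a2 - m) (b2 + m)) :
    p1' - p1 = p2' - p2 ∧ Agr y p1 p2 (-s) (p1' - p1 + s) := by
  have hK := h.K0
  have hΛ := h.two_le
  have hQ01 := h.Q01
  have hΛs : 2 * s ≤ Λ * s := by nlinarith
  have l1 := h1.len h (by omega)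
  have l2 := h2.len h (by omega)
  obtain ⟨m1, hy1, hx1, u1, u1', v1, v1'⟩ := h1
  obtain ⟨m2, hy2, hx2, u2, u2', v2, v2'⟩ := h2
  obtain ⟨hlen, hag⟩ := agr_of_wi hw (by omega) (by omega)
  have z1 := h.add_le (show p1 ≤ p1' by omega)
  have hno : ¬ ∃ q, 1 ≤ q ∧ q ≤ Q0 ∧ Per x q (a1 - m + K)
      (a1 - m + (b1 + m - (a1 - m)) - K) := by
    rintro ⟨q, hq1, hq2, hq3⟩
    have := (hx1.per_exact hq1 (hq3.mono (by omega) (by omega)) (by omega)).1
    exact this (hq3 (a1 - 1) (by omega) (by omega))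
  obtain ⟨q, hq⟩ := h.SC (a1 - m) (a2 - m) _ hag hno p1 (by omega) (by omega)
  have hr1 := h.mono (show p1 ≤ p1' + s by omega)
  have hr2 := h.add_hi (show p1' ≤ p1' + s by omega)
  rw [show p1' + s - p1' = s by ring] at hr2
  have hr3 := h.add_hi (show p1 - s ≤ p1 by omega)
  rw [show p1 - (p1 - s) = s by ring] at hr3
  have R := (match_right h.toCut K h.DR hag (by omega) hq.symm (p1' - p1 + s).toNat (by
    intro r hr
    have := h.mono (show p1 + (r : ℤ) ≤ p1' + s by omega)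
    omega)).2
  have L := (match_left h.toCut K h.DL hag (by omega) hq.symm s.toNat (by
    intro r hr
    have := h.mono (show p1 - s ≤ p1 - (r : ℤ) by omega)
    omega)).2
  have ag : Agr y p1 q (-s) (p1' - p1 + s) := by
    intro t ht1 ht2
    by_cases hc : 0 ≤ t
    · have := R t.toNat (by omega)
      rwa [Int.toNat_of_nonneg hc] at this
    · have := L (-1 - t).toNat (by omega)
      rw [Int.toNat_of_nonneg (by omega)] at this
      rw [show p1 - 1 - (-1 - t) = p1 + t by ring, show q - 1 - (-1 - t) = q + t by ring] at this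
      exact this
  have hmv := hy1.move (q := q) (by omega) (ag.mono (by omega) (by omega))
  -- closeness of q and p2
  have hcl : q ≤ p2 + K ∧ p2 ≤ q + K := by
    constructor
    · by_contra hc
      push Not at hc
      have := h.add_le (show p2 ≤ q by omega)
      omega
    · by_contra hc
      push Not at hc
      have := h.add_le (show q ≤ p2 by omega)
      omega
  obtain ⟨e1, e2⟩ := hmv.uniq hy2 (by omega)
  refine ⟨by omega, ?_⟩
  rw [← e1]
  exact ag

end

/-- the counting functions of the types are good -/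
theorem St_good (hA : JobA) {A B : Type} [Fintype A] [Fintype B] [DecidableEq A] [DecidableEq B]
    {φ : A → List B} {ψ : A → List A} {y : ℤ → A} {e : ℤ → ℤ} {Λ K Q0 : ℤ}
    (hψ : IsSub ψ y y e) (h : Syn y y e Λ K Q0)
    (hφ0 : ∀ b, 2 ≤ (φ b).length) (hψ0 : ∀ b, 2 ≤ (ψ b).length)
    {Q M : ℤ} {D E : ℕ} (hQ : Λ * Q0 ≤ Q) (hE : 2 * Q ≤ E) (hEM : (E : ℤ) ≤ M) (hD : K ≤ D)
    (hM1 : 1 ≤ M) (hR1 : ∀ a b, Rn y Q a b → a + M ≤ b → Rn y Q0 a b)
    (τ : Ty A (D + E)) (κ : ℕ) :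
    GoodF (fun n => ({z | z ∈ St y Q M D E τ ∧ (z.flatMap φ).length + κ < n}.ncard : ℝ)) := by
  have hΛ := h.two_le
  have hK := h.K0
  have hQ01 := h.Q01
  have hQ0Q : Q0 ≤ Q := by nlinarith
  have hDD : ((0 : ℕ) : ℤ) + K ≤ 2 * D := by push_cast; omega
  obtain ⟨L, R, hLR⟩ := exists_LR h (Q := Q) (M := M) (D := D) (E := E) 0 hE hEM hD hDD
  have : Nonempty (Ty A (D + E)) := ⟨τ⟩
  obtain ⟨g, hg⟩ := exists_factor (δ := ℤ × ℤ × ℤ × ℤ) (τ := Ty A (D + E)) (X := Ty A (D + E))
    (fun d => Pos y y e K Q M d.1 d.2.1 d.2.2.1 d.2.2.2) (fun d => ty y D E d.1 d.2.1)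
    (fun d => ty y D E d.2.2.1 d.2.2.2) (by
      rintro ⟨p1, p1', a1, b1⟩ ⟨p2, p2', a2, b2⟩ h1 h2 ht
      simp only at h1 h2 ht ⊢
      obtain ⟨s1, s2, g1, g2⟩ := pos_agr h hE hEM hD h1 h2 ht
      rw [ty_eq_iff]
      exact ⟨g1.mono (by omega) le_rfl, g2.mono le_rfl (by omega)⟩)
  obtain ⟨L0, hL0⟩ := exists_parent h (Q := Q) (M := M) (by omega)
  refine hA B A (Ty A (D + E)) ψ φ g (St y Q M D E) L R hψ0
    (fun b hb => by have := hφ0 b; rw [hb] at this; simp at this) ?_ ?_ ?_ ?_ τ κ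
  · rintro τ z ⟨p, p', hM', hR, rfl, rfl⟩
    obtain ⟨a, b, hpos⟩ := exists_child h hQ (hR1 _ _ hR hM') hM' (by omega)
    obtain ⟨k1, k2⟩ := hLR _ _ _ _ hpos
    have k3 := hpos.word hψ h (by omega) 0
    have k4 := hpos.len h (by omega)
    have k5 := hg (p, p', a, b) hpos
    simp only at k5
    refine ⟨a, b, by omega, hpos.2.2.1, k5, ?_⟩
    rw [← k1, ← k2, k3]
    simp
  · refine ⟨L0.toNat, ?_⟩
    rintro τ w ⟨a, b, hM', hR, rfl, rfl⟩ hlen
    have hl := wi_length y (show a ≤ b by omega)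
    obtain ⟨p, p', hpos⟩ := hL0 a b (by omega) hR
    obtain ⟨k1, k2⟩ := hLR _ _ _ _ hpos
    have k3 := hpos.word hψ h (by omega) 0
    have k5 := hg (p, p', a, b) hpos
    simp only at k5
    refine ⟨ty y D E p p', wi y p p', k5.symm, ⟨p, p', hpos.1, hpos.2.1, rfl, rfl⟩, ?_⟩
    rw [← k1, ← k2, k3]
    simp
  · rintro τ z ⟨p1, p1', m1, hy1, ht1, rfl⟩ z' ⟨p2, p2', m2, hy2, ht2, rfl⟩ hz
    rw [wi_flatMap hψ (by omega), wi_flatMap hψ (by omega)] at hz
    have z1 := h.add_le (show p1 ≤ p1' by omega)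
    have z2 := h.add_le (show p2 ≤ p2' by omega)
    obtain ⟨e1, e2⟩ := agr_of_wi hz (by omega) (by omega)
    obtain ⟨tl, tr⟩ := (ty_eq_iff _ _ _ _ _ _ _).1 (ht1.trans ht2.symm)
    have ar := (h.agr (by omega) (by omega) tr).2
    have w4 := h.add_le (show p1' ≤ p1' + (D : ℤ) by omega)
    have w3 := h.add_le (show p1' + -(E : ℤ) ≤ p1' by omega)
    have hag : Agr y (e p1) (e p2) 0 (e p1' - e p1 + K) := by
      intro t ht1 ht2
      by_cases hc : t < e p1' - e p1
      · exact e2 t ht1 hc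
      · have := ar (t - (e p1' - e p1)) (by omega) (by omega)
        rw [show e p1' + (t - (e p1' - e p1)) = e p1 + t by ring,
          show e p2' + (t - (e p1' - e p1)) = e p2 + t by omega] at this
        exact this
    obtain ⟨k1, k2⟩ := match_right h.toCut K h.DR (i := e p1) (j := e p2) (p := p1) (q := p2)
      hag (by omega) (by omega) (p1' - p1).toNat (by
      intro r hr
      have := h.mono (show p1 + (r : ℤ) ≤ p1' by omega)
      omega)
    rw [show p1 + ((p1' - p1).toNat : ℤ) = p1' by omega] at k1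
    have k3 : p2 + ((p1' - p1).toNat : ℤ) = p2' := h.toCut.inj (by omega)
    refine wi_eq (fun t h1 h2 => ?_) (by omega)
    have := k2 t.toNat (by omega)
    rwa [Int.toNat_of_nonneg h1] at this
  · rintro τ ⟨p, p', hM', -, -, hz⟩
    have hl := wi_length y (show p ≤ p' by omega)
    rw [← hz] at hl
    simp at hl
    omega

end Pool.Agent.W2helper19.DL
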